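import Pool.Agent.TSZ.Rp
import Pool.Agent.TSM.Closed

/-!
# TSZ: the projective plane with one handle has a tight smooth immersion

`K13` triangulates a closed surface of Euler characteristic `-1` (13 vertices, 42 edges, 28
triangles), `K13.map p13` is a tight polyhedral immersion, and it admits a tight smoothing.
-/

set_option autoImplicit false

open scoped RealInnerProductSpace

namespace Pool.Agent.TSZ

open Pool.Agent.TSM

/-- the body of `K13` is a closed surface -/
theorem closed13 : ClosedSurface K13.body := by
  obtain ⟨cs⟩ := chartedSpace_body K13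
  refine ⟨compactSpace_body K13, ?_, inferInstance, fun x => ?_⟩
  · have hne : Nonempty K13.body := ⟨⟨vtx 0, vtx_mem K13 0⟩⟩
    have hpre : PreconnectedSpace K13.body := by
      refine ⟨?_⟩
      have h := tpp13 0 0
      have h2 : {x : K13.body | (0 : ℝ) ≤ ⟪(0 : E3), K13.map p13 x⟫} = Set.univ := by
        ext x; simp
      rwa [h2] at h
    exact ⟨hne⟩
  · exact ⟨chartAt E2 x, mem_chart_source E2 x⟩

/-- the map is a polyhedral immersion -/
theorem poly13 : PolyImm (K13.map p13) := by
  refine ⟨Fin 13, inferInstance, inferInstance, K13, Homeomorph.refl _, p13, fun w => rfl, ?_⟩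
  rintro v x ⟨a, ha, rfl⟩ y ⟨b, hb, rfl⟩ h
  exact Subtype.ext (emb13 v ha hb h)

/-- the map is tight -/
theorem tight13 : Tight (K13.map p13) := tpp13.tight

/-- it admits a tight smoothing -/
theorem smoothing13 : AdmitsTightSmoothing (K13.map p13) :=
  final K13.body closed13 _ poly13 tight13

/-- the closed surface `K13.body` of Euler characteristic `-1` has a tight smooth immersion -/
theorem exists_tight_smooth_immersion : ∃ g : K13.body → E3, SmoothImm g ∧ Tight g := by
  obtain ⟨g, h1, h2, -⟩ := smoothing13 1 one_pos
  exact ⟨g, h1, h2⟩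

end Pool.Agent.TSZ
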