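import Pool.Agent.TSM.Final
import Pool.Agent.TSM.Glue

/-!
# TSZ: sanity checks for the definitions of MP_89ee87_gt
-/

set_option autoImplicit false

open scoped RealInnerProductSpace ContDiff Manifold Topology

namespace Pool.Agent.TSZ

open Pool.Agent.TSM

/-- (S1) uniform limits of tight maps are tight; in particular a continuous map of a compact
Hausdorff space which admits a tight smoothing is tight -/
theorem tight_of_limit {M : Type} [TopologicalSpace M] [CompactSpace M] [T2Space M] {f : M → E3}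
    (hf : Continuous f)
    (h : ∀ ε : ℝ, 0 < ε → ∃ g : M → E3, Tight g ∧ ∀ x, ‖g x - f x‖ < ε) : Tight f := by
  intro ν c hν
  have hcont : Continuous fun x => (⟪ν, f x⟫ : ℝ) := continuous_const.inner hf
  have hK : IsClosed {x : M | c ≤ ⟪ν, f x⟫} := isClosed_le continuous_const hcont
  rw [isPreconnected_iff_subset_of_fully_disjoint_closed hK]
  intro a b ha hb hab hdis
  obtain ⟨U, V, hU, hV, haU, hbV, hUV⟩ :=
    SeparatedNhds.of_isCompact_isCompact ha.isCompact hb.isCompact hdis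
  -- a gap outside U ∪ V
  have hgap : ∃ δ : ℝ, 0 < δ ∧ ∀ x, x ∉ U ∪ V → (⟪ν, f x⟫ : ℝ) ≤ c - δ := by
    have hC : IsCompact (U ∪ V)ᶜ := (hU.union hV).isClosed_compl.isCompact
    rcases (U ∪ V)ᶜ.eq_empty_or_nonempty with he | hne
    · exact ⟨1, one_pos, fun x hx => by
        have : x ∈ (U ∪ V)ᶜ := hx
        rw [he] at this
        exact absurd this (Set.notMem_empty x)⟩
    · obtain ⟨x0, hx0, hmax⟩ := hC.exists_isMaxOn hne hcont.continuousOn
      have h1 : (⟪ν, f x0⟫ : ℝ) < c := by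
        by_contra hcon
        push Not at hcon
        rcases hab hcon with h2 | h2
        · exact hx0 (Or.inl (haU h2))
        · exact hx0 (Or.inr (hbV h2))
      exact ⟨c - ⟪ν, f x0⟫, by linarith, fun x hx => by
        have := hmax (show x ∈ (U ∪ V)ᶜ from hx)
        simp only [Set.mem_ofPred_eq] at this
        linarith⟩
  obtain ⟨δ, hδ, hgap⟩ := hgap
  have hn : 0 < ‖ν‖ := norm_pos_iff.2 hν
  obtain ⟨g, hg, hgf⟩ := h (δ / (3 * ‖ν‖)) (by positivity)
  have hest : ∀ x, |(⟪ν, g x⟫ : ℝ) - ⟪ν, f x⟫| ≤ δ / 3 := by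
    intro x
    rw [← inner_sub_right]
    have h1 := abs_real_inner_le_norm ν (g x - f x)
    have h2 : ‖ν‖ * ‖g x - f x‖ ≤ ‖ν‖ * (δ / (3 * ‖ν‖)) :=
      mul_le_mul_of_nonneg_left (hgf x).le hn.le
    have h3 : ‖ν‖ * (δ / (3 * ‖ν‖)) = δ / 3 := by field_simp
    linarith
  have hA := hg ν (c - δ / 2) hν
  have hAsub : {x : M | c - δ / 2 ≤ ⟪ν, g x⟫} ⊆ U ∪ V := by
    intro x hx
    by_contra hcon
    have h1 := hgap x hcon
    have h2 := abs_le.1 (hest x)
    have h3 : c - δ / 2 ≤ ⟪ν, g x⟫ := hx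
    linarith
  have hKA : {x : M | c ≤ ⟪ν, f x⟫} ⊆ {x : M | c - δ / 2 ≤ ⟪ν, g x⟫} := by
    intro x hx
    have h2 := abs_le.1 (hest x)
    have h3 : c ≤ ⟪ν, f x⟫ := hx
    show c - δ / 2 ≤ ⟪ν, g x⟫
    linarith
  rcases hA.subset_or_subset hU hV hUV hAsub with h1 | h1
  · left
    intro x hx
    rcases hab hx with h2 | h2
    · exact h2
    · exact absurd (hbV h2) (Set.disjoint_left.1 hUV (h1 (hKA hx)))
  · right
    intro x hx
    rcases hab hx with h2 | h2
    · exact absurd (h1 (hKA hx)) (Set.disjoint_left.1 hUV (haU h2))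
    · exact h2

/-- (S1) a continuous map of a compact Hausdorff space which admits a tight smoothing is tight -/
theorem tight_of_admitsTightSmoothing {M : Type} [TopologicalSpace M] [CompactSpace M] [T2Space M]
    {f : M → E3} (hf : Continuous f) (h : AdmitsTightSmoothing f) : Tight f :=
  tight_of_limit hf (fun ε hε => by
    obtain ⟨g, -, h2, h3⟩ := h ε hε
    exact ⟨g, h2, h3⟩)

section body
variable {V : Type} [Fintype V] [DecidableEq V] (K : Surf V)

omit [DecidableEq V] in
lemma inner_lin (ν : E3) (p : V → E3) (w : V → ℝ) :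
    (⟪ν, lin p w⟫ : ℝ) = ∑ v, w v * ⟪ν, p v⟫ := by
  unfold lin
  rw [inner_sum]
  exact Finset.sum_congr rfl (fun v _ => by rw [inner_smul_right])

/-- two points of one triangle are joined by a segment in the body -/
lemma segment_body {t : Finset V} (ht : t ∈ K.tri) {w w' : V → ℝ} (hw : ∀ v, 0 ≤ w v)
    (hw1 : ∑ v, w v = 1) (hwt : ∀ v, v ∉ t → w v = 0) (hw' : ∀ v, 0 ≤ w' v)
    (hw1' : ∑ v, w' v = 1) (hwt' : ∀ v, v ∉ t → w' v = 0) : segment ℝ w w' ⊆ K.body := by
  rintro z ⟨a, b, ha, hb, hab, rfl⟩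
  refine ⟨fun v => ?_, ?_, t, ht, fun v hv => ?_⟩
  · simp only [Pi.add_apply, Pi.smul_apply, smul_eq_mul]
    exact add_nonneg (mul_nonneg ha (hw v)) (mul_nonneg hb (hw' v))
  · simp only [Pi.add_apply, Pi.smul_apply, smul_eq_mul, Finset.sum_add_distrib]
    rw [← Finset.mul_sum, ← Finset.mul_sum, hw1, hw1']
    linarith
  · simp [hwt v hv, hwt' v hv]

omit [DecidableEq V] in
lemma segment_level {ν : E3} {p : V → E3} {c : ℝ} {w w' : V → ℝ}
    (hw : c ≤ ∑ v, w v * ⟪ν, p v⟫) (hw' : c ≤ ∑ v, w' v * ⟪ν, p v⟫) :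
    ∀ z ∈ segment ℝ w w', c ≤ ∑ v, z v * ⟪ν, p v⟫ := by
  rintro z ⟨a, b, ha, hb, hab, rfl⟩
  have h1 : ∑ v, (a • w + b • w') v * (⟪ν, p v⟫ : ℝ) =
      a * (∑ v, w v * ⟪ν, p v⟫) + b * ∑ v, w' v * ⟪ν, p v⟫ := by
    rw [Finset.mul_sum, Finset.mul_sum, ← Finset.sum_add_distrib]
    refine Finset.sum_congr rfl (fun v _ => ?_)
    simp only [Pi.add_apply, Pi.smul_apply, smul_eq_mul]
    ring
  rw [h1]
  calc c = a * c + b * c := by rw [← add_mul, hab, one_mul]
    _ ≤ _ := add_le_add (mul_le_mul_of_nonneg_left hw ha) (mul_le_mul_of_nonneg_left hw' hb)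

/-- (S2) every simplexwise linear map of a 2-neighbourly surface (every two vertices lie in a
common triangle) is tight -/
theorem tight_of_neighbourly (hK : ∀ u v : V, ∃ t ∈ K.tri, u ∈ t ∧ v ∈ t) (p : V → E3) :
    Tight (K.map p) := by
  intro ν c _
  rw [← Topology.IsInducing.subtypeVal.isPreconnected_image]
  have himg : (Subtype.val '' {x : K.body | c ≤ ⟪ν, K.map p x⟫}) =
      {w | w ∈ K.body ∧ c ≤ ∑ v, w v * ⟪ν, p v⟫} := by
    ext w
    constructor
    · rintro ⟨x, hx, rfl⟩
      refine ⟨x.2, ?_⟩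
      have h1 : c ≤ ⟪ν, K.map p x⟫ := hx
      rwa [Surf.map, inner_lin] at h1
    · rintro ⟨h1, h2⟩
      refine ⟨⟨w, h1⟩, ?_, rfl⟩
      show c ≤ ⟪ν, K.map p ⟨w, h1⟩⟫
      rwa [Surf.map, inner_lin]
  rw [himg]
  by_cases hne : ∃ j, c ≤ (⟪ν, p j⟫ : ℝ)
  · obtain ⟨j, hj⟩ := hne
    have hsingle : ∀ i, ∑ v, (Pi.single i (1 : ℝ) : V → ℝ) v * (⟪ν, p v⟫ : ℝ) = ⟪ν, p i⟫ := by
      intro i
      simp [Pi.single_apply]
    have hs0 : ∀ i v, 0 ≤ (Pi.single i (1 : ℝ) : V → ℝ) v := by
      intro i v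
      by_cases h : v = i
      · subst h; simp
      · simp [Pi.single_apply, h]
    have hs1 : ∀ i, ∑ v, (Pi.single i (1 : ℝ) : V → ℝ) v = 1 := by
      intro i; simp [Pi.single_apply]
    have hst : ∀ (i : V) (t : Finset V), i ∈ t → ∀ v, v ∉ t →
        (Pi.single i (1 : ℝ) : V → ℝ) v = 0 := by
      intro i t hi v hv
      have : v ≠ i := by rintro rfl; exact hv hi
      simp [Pi.single_apply, this]
    refine isPreconnected_of_forall (Pi.single j 1) ?_
    rintro w ⟨hwK, hwc⟩
    obtain ⟨hw0, hw1, t, ht, hwt⟩ := hwK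
    -- a vertex of t above the level
    have hi : ∃ i ∈ t, c ≤ (⟪ν, p i⟫ : ℝ) := by
      by_contra hcon
      push Not at hcon
      have h1 : ∑ v, w v * (⟪ν, p v⟫ : ℝ) < ∑ v, w v * c := by
        refine Finset.sum_lt_sum (fun v _ => ?_) ?_
        · by_cases hv : v ∈ t
          · exact mul_le_mul_of_nonneg_left (hcon v hv).le (hw0 v)
          · simp [hwt v hv]
        · by_contra hcon2
          push Not at hcon2
          have h2 : ∀ v, w v = 0 := by
            intro v
            by_cases hv : v ∈ t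
            · by_contra hne
              have h3 : 0 < w v := lt_of_le_of_ne (hw0 v) (Ne.symm hne)
              have h4 := hcon2 v (Finset.mem_univ v)
              nlinarith [hcon v hv, mul_lt_mul_of_pos_left (hcon v hv) h3]
            · exact hwt v hv
          simp [h2] at hw1
      rw [← Finset.sum_mul, hw1, one_mul] at h1
      linarith
    obtain ⟨i, hit, hic⟩ := hi
    obtain ⟨t', ht', hit', hjt'⟩ := hK i j
    refine ⟨segment ℝ w (Pi.single i 1) ∪ segment ℝ (Pi.single i 1) (Pi.single j 1), ?_,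
      Or.inr (right_mem_segment _ _ _), Or.inl (left_mem_segment _ _ _), ?_⟩
    · rintro z (hz | hz)
      · exact ⟨segment_body K ht hw0 hw1 hwt (hs0 i) (hs1 i) (hst i t hit) hz,
          segment_level hwc (by rw [hsingle]; exact hic) z hz⟩
      · exact ⟨segment_body K ht' (hs0 i) (hs1 i) (hst i t' hit') (hs0 j) (hs1 j) (hst j t' hjt')
          hz, segment_level (by rw [hsingle]; exact hic) (by rw [hsingle]; exact hj) z hz⟩
    · exact (convex_segment _ _).isPreconnected.union (Pi.single i 1) (right_mem_segment _ _ _)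
        (left_mem_segment _ _ _) (convex_segment _ _).isPreconnected
  · push Not at hne
    have hemp : {w | w ∈ K.body ∧ c ≤ ∑ v, w v * (⟪ν, p v⟫ : ℝ)} = ∅ := by
      rw [Set.eq_empty_iff_forall_notMem]
      rintro w ⟨⟨hw0, hw1, -⟩, hwc⟩
      have h1 : ∑ v, w v * (⟪ν, p v⟫ : ℝ) < ∑ v, w v * c := by
        refine Finset.sum_lt_sum (fun v _ => mul_le_mul_of_nonneg_left (hne v).le (hw0 v)) ?_
        by_contra hcon2
        push Not at hcon2
        have h2 : ∀ v, w v = 0 := by
          intro v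
          by_contra hne2
          have h3 : 0 < w v := lt_of_le_of_ne (hw0 v) (Ne.symm hne2)
          have h4 := hcon2 v (Finset.mem_univ v)
          nlinarith [mul_lt_mul_of_pos_left (hne v) h3]
        simp [h2] at hw1
      rw [← Finset.sum_mul, hw1, one_mul] at h1
      linarith
    rw [hemp]
    exact isPreconnected_empty

/-- an injective simplexwise linear map is a polyhedral immersion -/
lemma polyImm_of_injOn {p : V → E3} (h : Set.InjOn (lin p) K.body) : PolyImm (K.map p) := by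
  refine ⟨V, inferInstance, inferInstance, K, Homeomorph.refl _, p, fun w => rfl, ?_⟩
  rintro v _ ⟨x, _, rfl⟩ _ ⟨y, _, rfl⟩ hxy
  have : x.1 = y.1 := h x.2 y.2 hxy
  exact congrArg _ (Subtype.ext this)

end body

/-! ### the tetrahedron -/

/-- the boundary of the 3-simplex -/
def tetra : Surf (Fin 4) where
  tri := Finset.univ.filter (fun t => t.card = 3)
  card3 := by decide
  link := by
    intro v
    fin_cases v
    · exact ⟨3, (![1, 2, 3] : Fin 3 → Fin 4), by
        refine ⟨by decide, by decide, by decide, by decide⟩⟩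
    · exact ⟨3, (![0, 2, 3] : Fin 3 → Fin 4), by
        refine ⟨by decide, by decide, by decide, by decide⟩⟩
    · exact ⟨3, (![0, 1, 3] : Fin 3 → Fin 4), by
        refine ⟨by decide, by decide, by decide, by decide⟩⟩
    · exact ⟨3, (![0, 1, 2] : Fin 3 → Fin 4), by
        refine ⟨by decide, by decide, by decide, by decide⟩⟩

/-- the origin and the three unit vectors -/
noncomputable def tetraP : Fin 4 → E3 := ![0, EuclideanSpace.single 0 1,
  EuclideanSpace.single 1 1, EuclideanSpace.single 2 1]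

/-- (S2) the boundary of a tetrahedron is a tight polyhedral immersion -/
theorem tetra_tight : Tight (tetra.map tetraP) :=
  tight_of_neighbourly tetra (by decide) tetraP

theorem tetra_polyImm : PolyImm (tetra.map tetraP) := by
  apply polyImm_of_injOn
  intro w hw w' hw' h
  have h0 := congrArg (fun x : E3 => x 0) h
  have h1 := congrArg (fun x : E3 => x 1) h
  have h2 := congrArg (fun x : E3 => x 2) h
  simp [lin, tetraP, Fin.sum_univ_four, PiLp.single_apply] at h0 h1 h2
  have hs := hw.2.1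
  have hs' := hw'.2.1
  rw [Fin.sum_univ_four] at hs hs'
  funext v
  fin_cases v <;> simp <;> linarith

/-! ### a dented sphere -/

/-- the boundary of the 3-simplex with one facet subdivided -/
def dent : Surf (Fin 5) where
  tri := {{0, 1, 2}, {0, 1, 3}, {0, 2, 3}, {1, 2, 4}, {1, 3, 4}, {2, 3, 4}}
  card3 := by decide
  link := by
    intro v
    fin_cases v
    · exact ⟨3, (![1, 2, 3] : Fin 3 → Fin 5), by
        refine ⟨by decide, by decide, by decide, by decide⟩⟩
    · exact ⟨4, (![0, 2, 4, 3] : Fin 4 → Fin 5), by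
        refine ⟨by decide, by decide, by decide, by decide⟩⟩
    · exact ⟨4, (![0, 1, 4, 3] : Fin 4 → Fin 5), by
        refine ⟨by decide, by decide, by decide, by decide⟩⟩
    · exact ⟨4, (![0, 1, 4, 2] : Fin 4 → Fin 5), by
        refine ⟨by decide, by decide, by decide, by decide⟩⟩
    · exact ⟨3, (![1, 2, 3] : Fin 3 → Fin 5), by
        refine ⟨by decide, by decide, by decide, by decide⟩⟩

/-- the vertices of the dented tetrahedron -/
noncomputable def dentP : Fin 5 → E3 := ![0, EuclideanSpace.single 0 6,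
  EuclideanSpace.single 1 6, EuclideanSpace.single 2 6, WithLp.toLp 2 ![1, 1, 1]]

lemma dent_coord (w : Fin 5 → ℝ) : lin dentP w 0 = 6 * w 1 + w 4 ∧
    lin dentP w 1 = 6 * w 2 + w 4 ∧ lin dentP w 2 = 6 * w 3 + w 4 := by
  refine ⟨?_, ?_, ?_⟩ <;>
    simp [lin, dentP, Fin.sum_univ_five, PiLp.single_apply] <;> ring

lemma dent_zero {w : Fin 5 → ℝ} (hw : w ∈ dent.body) : w 1 = 0 ∨ w 2 = 0 ∨ w 3 = 0 := by
  obtain ⟨-, -, t, ht, h⟩ := hw
  have h1 : 1 ∉ t ∨ 2 ∉ t ∨ 3 ∉ t := by
    clear h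
    revert t
    decide
  rcases h1 with h1 | h1 | h1
  · exact Or.inl (h 1 h1)
  · exact Or.inr (Or.inl (h 2 h1))
  · exact Or.inr (Or.inr (h 3 h1))

lemma dent_04 {w : Fin 5 → ℝ} (hw : w ∈ dent.body) : w 0 = 0 ∨ w 4 = 0 := by
  obtain ⟨-, -, t, ht, h⟩ := hw
  have h1 : 0 ∉ t ∨ 4 ∉ t := by
    clear h
    revert t
    decide
  rcases h1 with h1 | h1
  · exact Or.inl (h 0 h1)
  · exact Or.inr (h 4 h1)

theorem dent_polyImm : PolyImm (dent.map dentP) := by
  apply polyImm_of_injOn
  intro w hw w' hw' h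
  obtain ⟨a1, a2, a3⟩ := dent_coord w
  obtain ⟨b1, b2, b3⟩ := dent_coord w'
  have h0 := congrArg (fun x : E3 => x 0) h
  have h1 := congrArg (fun x : E3 => x 1) h
  have h2 := congrArg (fun x : E3 => x 2) h
  simp only [a1, a2, a3, b1, b2, b3] at h0 h1 h2
  have hs := hw.2.1
  have hs' := hw'.2.1
  rw [Fin.sum_univ_five] at hs hs'
  have hp := hw.1
  have hp' := hw'.1
  have h4 : w 4 = w' 4 := by
    refine le_antisymm ?_ ?_
    · rcases dent_zero hw' with hz | hz | hz <;> linarith [hp 1, hp 2, hp 3]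
    · rcases dent_zero hw with hz | hz | hz <;> linarith [hp' 1, hp' 2, hp' 3]
  funext v
  fin_cases v <;> simp <;> linarith

/-- (S3) the dented tetrahedron is not tight -/
theorem dent_not_tight : ¬ Tight (dent.map dentP) := by
  intro h
  have hν : (WithLp.toLp 2 ![-1, -1, -1] : E3) ≠ 0 := by
    intro h0
    have := congrArg (fun x : E3 => x 0) h0
    simp at this
  have h1 := h (WithLp.toLp 2 ![-1, -1, -1]) (-5) hν
  have hin : ∀ x : dent.body, (⟪(WithLp.toLp 2 ![-1, -1, -1] : E3), dent.map dentP x⟫ : ℝ) =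
      -(6 * x.1 1 + 6 * x.1 2 + 6 * x.1 3 + 3 * x.1 4) := by
    intro x
    obtain ⟨a1, a2, a3⟩ := dent_coord x.1
    have : (⟪(WithLp.toLp 2 ![-1, -1, -1] : E3), dent.map dentP x⟫ : ℝ) =
        -(lin dentP x.1 0) - lin dentP x.1 1 - lin dentP x.1 2 := by
      simp [Surf.map, PiLp.inner_apply, Fin.sum_univ_three]
      ring
    rw [this, a1, a2, a3]
    ring
  have hU : IsOpen {x : dent.body | 0 < x.1 0} :=
    isOpen_lt continuous_const ((continuous_apply 0).comp continuous_subtype_val)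
  have hV : IsOpen {x : dent.body | 0 < x.1 4} :=
    isOpen_lt continuous_const ((continuous_apply 4).comp continuous_subtype_val)
  have hdis : Disjoint {x : dent.body | 0 < x.1 0} {x : dent.body | 0 < x.1 4} := by
    rw [Set.disjoint_left]
    intro x hx hx'
    have hx1 : 0 < x.1 0 := hx
    have hx2 : 0 < x.1 4 := hx'
    rcases dent_04 x.2 with h | h <;> linarith
  have hsub : {x : dent.body | (-5 : ℝ) ≤ ⟪(WithLp.toLp 2 ![-1, -1, -1] : E3),
      dent.map dentP x⟫} ⊆ {x : dent.body | 0 < x.1 0} ∪ {x : dent.body | 0 < x.1 4} := by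
    intro x hx
    have h2 : (-5 : ℝ) ≤ ⟪(WithLp.toLp 2 ![-1, -1, -1] : E3), dent.map dentP x⟫ := hx
    rw [hin] at h2
    have hs := x.2.2.1
    rw [Fin.sum_univ_five] at hs
    by_contra hcon
    simp only [Set.mem_union, Set.mem_ofPred_eq, not_or, not_lt] at hcon
    linarith [x.2.1 0, x.2.1 4, hcon.1, hcon.2]
  have hmem0 : (Pi.single 0 1 : Fin 5 → ℝ) ∈ dent.body := by
    refine ⟨fun v => ?_, by simp [Pi.single_apply], {0, 1, 2}, by decide, fun v hv => ?_⟩
    · by_cases h : v = 0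
      · subst h; simp
      · simp [h]
    · have : v ≠ 0 := by rintro rfl; simp at hv
      simp [this]
  have hmem4 : (Pi.single 4 1 : Fin 5 → ℝ) ∈ dent.body := by
    refine ⟨fun v => ?_, by simp [Pi.single_apply], {1, 2, 4}, by decide, fun v hv => ?_⟩
    · by_cases h : v = 4
      · subst h; simp
      · simp [h]
    · have : v ≠ 4 := by rintro rfl; simp at hv
      simp [this]
  rcases h1.subset_or_subset hU hV hdis hsub with h2 | h2
  · have h3 : (⟨_, hmem4⟩ : dent.body) ∈ {x : dent.body | 0 < x.1 0} := h2 (by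
      show (-5 : ℝ) ≤ ⟪(WithLp.toLp 2 ![-1, -1, -1] : E3), dent.map dentP ⟨_, hmem4⟩⟫
      rw [hin]
      simp
      norm_num)
    have h4 : (0 : ℝ) < (Pi.single 4 1 : Fin 5 → ℝ) 0 := h3
    simp at h4
  · have h3 : (⟨_, hmem0⟩ : dent.body) ∈ {x : dent.body | 0 < x.1 4} := h2 (by
      show (-5 : ℝ) ≤ ⟪(WithLp.toLp 2 ![-1, -1, -1] : E3), dent.map dentP ⟨_, hmem0⟩⟫
      rw [hin]
      simp)
    have h4 : (0 : ℝ) < (Pi.single 0 1 : Fin 5 → ℝ) 4 := h3
    simp at h4

/-- (S3) the dented tetrahedron admits no tight smoothing -/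
theorem dent_not_smoothing : ¬ AdmitsTightSmoothing (dent.map dentP) := by
  intro h
  have : CompactSpace dent.body := compactSpace_bodyOf dent.tri
  exact dent_not_tight (tight_of_admitsTightSmoothing (continuous_map dent dentP) h)

/-! ### the round sphere -/

/-- (S4) the inclusion of the unit sphere is a smooth immersion -/
theorem sphere_smoothImm : SmoothImm ((↑) : Metric.sphere (0 : E3) 1 → E3) := by
  have : Fact (Module.finrank ℝ E3 = 2 + 1) := ⟨by simp⟩
  refine ⟨EuclideanSpace.instChartedSpaceSphere (n := 2), ?_, contMDiff_coe_sphere,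
    mfderiv_coe_sphere_injective⟩
  exact IsManifold.of_le (n := ω) le_top

/-- the inner product with the pole does not decrease along the normalised segment to the pole -/
lemma arc_mono {n x : E3} (hn : ‖n‖ = 1) (hx : ‖x‖ = 1) {s : ℝ} (hs : 0 ≤ s) (hs1 : s ≤ 1)
    (hz : (1 - s) • x + s • n ≠ 0) :
    (⟪n, x⟫ : ℝ) ≤ ⟪n, (‖(1 - s) • x + s • n‖)⁻¹ • ((1 - s) • x + s • n)⟫ := by
  set a : ℝ := ⟪n, x⟫ with ha
  set z := (1 - s) • x + s • n with hzdef
  have ha1 : |a| ≤ 1 := by
    have := abs_real_inner_le_norm n x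
    rwa [hn, hx, one_mul] at this
  obtain ⟨hal, hau⟩ := abs_le.1 ha1
  have hnz : (⟪n, z⟫ : ℝ) = (1 - s) * a + s := by
    rw [hzdef, inner_add_right, inner_smul_right, inner_smul_right, real_inner_self_eq_norm_sq, hn]
    simp [ha]
  have hzz : ‖z‖ ^ 2 = (1 - s) ^ 2 + s ^ 2 + 2 * s * (1 - s) * a := by
    rw [← real_inner_self_eq_norm_sq, hzdef, inner_add_left, inner_add_right, inner_add_right]
    simp only [inner_smul_left, inner_smul_right, real_inner_self_eq_norm_sq, hn, hx,
      real_inner_comm n x, ← ha]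
    simp
    ring
  have hpos : 0 < ‖z‖ := norm_pos_iff.2 hz
  rw [inner_smul_right, hnz, inv_mul_eq_div, le_div_iff₀ hpos]
  by_cases h1 : 0 ≤ (1 - s) * a + s
  · by_cases h2 : a ≤ 0
    · nlinarith [mul_nonneg (neg_nonneg.2 h2) hpos.le]
    · push Not at h2
      -- a > 0: ‖z‖ ≤ 1
      have h3 : a * ‖z‖ ≤ (1 - s) * a + s := by
        apply abs_le_of_sq_le_sq' _ h1 |>.2
        have : (a * ‖z‖) ^ 2 = a ^ 2 * ((1 - s) ^ 2 + s ^ 2 + 2 * s * (1 - s) * a) := by
          rw [mul_pow, hzz]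
        rw [this]
        have h4 : 0 ≤ (1 - a ^ 2) * s * (s + 2 * (1 - s) * a) := by
          have : 0 ≤ 1 - a ^ 2 := by nlinarith
          have : 0 ≤ (1 - s) * a := mul_nonneg (by linarith) h2.le
          positivity
        nlinarith
      exact h3
  · push Not at h1
    have h2 : a < 0 := by
      by_contra hcon
      push Not at hcon
      have : 0 ≤ (1 - s) * a := mul_nonneg (by linarith) hcon
      linarith
    have h3 : -((1 - s) * a + s) ≤ -a * ‖z‖ := by
      apply abs_le_of_sq_le_sq' _ (mul_nonneg (by linarith) hpos.le) |>.2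
      have : (-a * ‖z‖) ^ 2 = a ^ 2 * ((1 - s) ^ 2 + s ^ 2 + 2 * s * (1 - s) * a) := by
        rw [mul_pow, hzz]; ring
      rw [this]
      have h4 : 0 ≤ (1 - a ^ 2) * s * (-(s + 2 * (1 - s) * a)) := by
        have : 0 ≤ 1 - a ^ 2 := by nlinarith
        have h5 : 0 ≤ -(s + 2 * (1 - s) * a) := by
          have : (1 - s) * a ≤ 0 := mul_nonpos_of_nonneg_of_nonpos (by linarith) h2.le
          linarith
        positivity
      nlinarith
    linarith

/-- (S4) the inclusion of the unit sphere is tight -/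
theorem sphere_tight : Tight ((↑) : Metric.sphere (0 : E3) 1 → E3) := by
  intro ν c hν
  have hn0 : 0 < ‖ν‖ := norm_pos_iff.2 hν
  rw [← Topology.IsInducing.subtypeVal.isPreconnected_image]
  have himg : (Subtype.val '' {x : Metric.sphere (0 : E3) 1 | c ≤ ⟪ν, (x : E3)⟫}) =
      {x : E3 | ‖x‖ = 1 ∧ c ≤ ⟪ν, x⟫} := by
    ext w
    constructor
    · rintro ⟨x, hx, rfl⟩
      exact ⟨by simpa using x.2, hx⟩
    · rintro ⟨h1, h2⟩
      exact ⟨⟨w, by simpa using h1⟩, h2, rfl⟩
  rw [himg]
  set n : E3 := ‖ν‖⁻¹ • ν with hndef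
  have hn : ‖n‖ = 1 := by
    rw [hndef, norm_smul, norm_inv, norm_norm, inv_mul_cancel₀ hn0.ne']
  have hνn : ν = ‖ν‖ • n := by
    rw [hndef, smul_smul, mul_inv_cancel₀ hn0.ne', one_smul]
  by_cases hc : c ≤ -‖ν‖
  · have h1 : {x : E3 | ‖x‖ = 1 ∧ c ≤ ⟪ν, x⟫} = Metric.sphere 0 1 := by
      ext x
      simp only [Set.mem_ofPred_eq, mem_sphere_zero_iff_norm, and_iff_left_iff_imp]
      intro hx
      have h2 := abs_real_inner_le_norm ν x
      rw [hx, mul_one] at h2
      have := (abs_le.1 h2).1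
      linarith
    rw [h1]
    refine isPreconnected_sphere ?_ 0 1
    rw [← Module.finrank_eq_rank]
    norm_cast
    simp
  · push Not at hc
    refine isPreconnected_of_forall n ?_
    rintro x ⟨hx, hxc⟩
    have hz : ∀ s ∈ Set.Icc (0 : ℝ) 1, (1 - s) • x + s • n ≠ 0 := by
      intro s hs h0
      have h1 : (1 - s) • x = -(s • n) := eq_neg_of_add_eq_zero_left h0
      have h2 := congrArg norm h1
      rw [norm_smul, norm_neg, norm_smul, hx, hn, Real.norm_of_nonneg (by linarith [hs.2]),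
        Real.norm_of_nonneg hs.1] at h2
      have h3 : s = 1 / 2 := by linarith
      rw [h3] at h0
      have h4 : x = -n := by
        have h5 : (1 - 1 / 2 : ℝ) • x + (1 / 2 : ℝ) • n = (1 / 2 : ℝ) • (x + n) := by
          rw [smul_add]; norm_num
        rw [h5] at h0
        have h6 := (smul_eq_zero.1 h0).resolve_left (by norm_num)
        exact eq_neg_of_add_eq_zero_left h6
      rw [h4, inner_neg_right, hνn, inner_smul_left, real_inner_self_eq_norm_sq, hn] at hxc
      simp at hxc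
      linarith
    refine ⟨(fun s : ℝ => (‖(1 - s) • x + s • n‖)⁻¹ • ((1 - s) • x + s • n)) '' Set.Icc 0 1,
      ?_, ⟨1, by simp, by simp [hn]⟩, ⟨0, by simp, by simp [hx]⟩, ?_⟩
    · rintro _ ⟨s, hs, rfl⟩
      have hzs := hz s hs
      refine ⟨?_, ?_⟩
      · simp only
        rw [norm_smul, norm_inv, norm_norm, inv_mul_cancel₀ (norm_ne_zero_iff.2 hzs)]
      · have h1 := arc_mono hn hx hs.1 hs.2 hzs
        have h2 : (⟪ν, x⟫ : ℝ) = ‖ν‖ * ⟪n, x⟫ := by
          conv_lhs => rw [hνn]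
          rw [inner_smul_left]; simp
        have h3 : (⟪ν, (‖(1 - s) • x + s • n‖)⁻¹ • ((1 - s) • x + s • n)⟫ : ℝ) =
            ‖ν‖ * ⟪n, (‖(1 - s) • x + s • n‖)⁻¹ • ((1 - s) • x + s • n)⟫ := by
          conv_lhs => rw [hνn]
          rw [inner_smul_left]; simp
        simp only
        rw [h3]
        rw [h2] at hxc
        exact hxc.trans (mul_le_mul_of_nonneg_left h1 hn0.le)
    · refine (isPreconnected_Icc).image _ ?_
      have h1 : ContinuousOn (fun s : ℝ => (1 - s) • x + s • n) (Set.Icc 0 1) := by fun_prop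
      exact (h1.norm.inv₀ (fun s hs => norm_ne_zero_iff.2 (hz s hs))).smul h1

/-- (S4) the inclusion of the unit sphere admits a tight smoothing -/
theorem sphere_admits : AdmitsTightSmoothing ((↑) : Metric.sphere (0 : E3) 1 → E3) :=
  fun ε hε => ⟨_, sphere_smoothImm, sphere_tight, fun x => by simpa using hε⟩

end Pool.Agent.TSZ
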