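import Pool.Agent.TSM.Final

/-!
# TSZ: certificates for embedded stars and for the two-piece property

`tpp_of_cone`: a simplexwise linear map with pairwise different vertices has the two-piece
property if, at every vertex `v`, the vectors `p u - p v` lie in the cone spanned by the edges
at `v`.  `embStars_of_sep`: the stars are embedded if any two triangles with a common vertex are
weakly separated by a plane which touches both of them exactly in the common face.
-/

set_option autoImplicit false

open scoped RealInnerProductSpace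

namespace Pool.Agent.TSZ

open Pool.Agent.TSM Set

variable {V : Type} [Fintype V] [DecidableEq V]

/-! ### a functional which separates finitely many points -/

theorem exists_generic (p : V → E3) (hinj : Function.Injective p) :
    ∃ μ : E3, ∀ u v, u ≠ v → (⟪μ, p u⟫ : ℝ) ≠ ⟪μ, p v⟫ := by
  classical
  have hfin : ∀ d : E3, d ≠ 0 → {s : ℝ | d 0 + d 1 * s + d 2 * s ^ 2 = 0}.Finite := by
    intro d hd
    let q : Polynomial ℝ := Polynomial.C (d 0) + Polynomial.C (d 1) * Polynomial.X +
      Polynomial.C (d 2) * Polynomial.X ^ 2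
    have hq : q ≠ 0 := by
      intro h0
      apply hd
      have h1 : ∀ n : ℕ, q.coeff n = 0 := fun n => by rw [h0]; simp
      have c0 := h1 0
      have c1 := h1 1
      have c2 := h1 2
      simp [q, Polynomial.coeff_X, Polynomial.coeff_C] at c0 c1 c2
      ext i
      fin_cases i
      · simpa using c0
      · simpa using c1
      · simpa using c2
    refine (q.roots.toFinset.finite_toSet).subset ?_
    intro s hs
    have h2 : q.eval s = 0 := by
      simp only [q, Polynomial.eval_add, Polynomial.eval_mul, Polynomial.eval_C,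
        Polynomial.eval_X, Polynomial.eval_pow]
      exact hs
    simp [Polynomial.IsRoot, hq, h2]
  have hfin2 : (⋃ x ∈ (Finset.univ.filter fun x : V × V => x.1 ≠ x.2),
      {s : ℝ | (p x.1 - p x.2) 0 + (p x.1 - p x.2) 1 * s + (p x.1 - p x.2) 2 * s ^ 2 = 0}).Finite := by
    refine Set.Finite.biUnion (Finset.finite_toSet _) ?_
    intro x hx
    refine hfin _ ?_
    have : x.1 ≠ x.2 := by simpa using hx
    exact sub_ne_zero.2 fun h => this (hinj h)
  obtain ⟨s, hs⟩ := hfin2.exists_notMem
  refine ⟨!₂[1, s, s ^ 2], fun u v huv h => hs ?_⟩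
  simp only [Set.mem_iUnion]
  refine ⟨(u, v), by simpa using huv, ?_⟩
  have h3 : (⟪(!₂[1, s, s ^ 2] : E3), p u - p v⟫ : ℝ) = 0 := by
    rw [inner_sub_right, h, sub_self]
  rw [PiLp.inner_apply] at h3
  simp only [Fin.sum_univ_three, PiLp.toLp_apply, Matrix.cons_val_zero, Matrix.cons_val_one,
    Matrix.cons_val, RCLike.inner_apply, conj_trivial] at h3
  show (p u - p v) 0 + (p u - p v) 1 * s + (p u - p v) 2 * s ^ 2 = 0
  linarith

/-! ### the two-piece property -/

/-- the vertex `v` as a point of the body -/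
def vtx (v : V) : V → ℝ := Pi.single v 1

theorem vtx_mem (K : Surf V) (v : V) : vtx v ∈ K.body := by
  obtain ⟨n, c, h3, -, -, h⟩ := K.link v
  obtain ⟨ht, hv⟩ := (h {v, c 0, c (0 + 1)}).2 ⟨0, rfl⟩
  refine ⟨fun u => ?_, by simp [vtx], _, ht, fun u hu => ?_⟩
  · unfold vtx
    by_cases h : u = v
    · subst h; simp
    · simp [Pi.single_eq_of_ne h]
  · have : u ≠ v := fun h => hu (by rw [h]; exact hv)
    simp [vtx, Pi.single_eq_of_ne this]

theorem lin_vtx (p : V → E3) (v : V) : lin p (vtx v) = p v := by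
  unfold lin vtx
  rw [Finset.sum_eq_single v]
  · simp
  · intro b _ hb
    simp [Pi.single_eq_of_ne hb]
  · simp

theorem lin_add (p : V → E3) (a b : ℝ) (x y : V → ℝ) :
    lin p (a • x + b • y) = a • lin p x + b • lin p y := by
  unfold lin
  simp only [Pi.add_apply, Pi.smul_apply, smul_eq_mul, add_smul, Finset.sum_add_distrib,
    Finset.smul_sum, mul_smul]

/-- segments with a common triangle -/
theorem seg_sub (K : Surf V) (p : V → E3) (ν : E3) (c : ℝ) {x y : V → ℝ}
    (hx : x ∈ K.body) (hy : y ∈ K.body) {t : Finset V} (ht : t ∈ K.tri)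
    (hxt : ∀ v, v ∉ t → x v = 0) (hyt : ∀ v, v ∉ t → y v = 0)
    (hcx : c ≤ ⟪ν, lin p x⟫) (hcy : c ≤ ⟪ν, lin p y⟫) :
    segment ℝ x y ⊆ {w | w ∈ K.body ∧ c ≤ ⟪ν, lin p w⟫} := by
  rintro z ⟨a, b, ha, hb, hab, rfl⟩
  refine ⟨⟨fun v => ?_, ?_, t, ht, fun v hv => ?_⟩, ?_⟩
  · have h1 := hx.1 v
    have h2 := hy.1 v
    simp only [Pi.add_apply, Pi.smul_apply, smul_eq_mul]
    positivity
  · simp only [Pi.add_apply, Pi.smul_apply, smul_eq_mul, Finset.sum_add_distrib,
      ← Finset.mul_sum, hx.2.1, hy.2.1]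
    linarith
  · simp [hxt v hv, hyt v hv]
  · rw [lin_add, inner_add_right, inner_smul_right, inner_smul_right]
    have h1 := mul_le_mul_of_nonneg_left hcx ha
    have h2 := mul_le_mul_of_nonneg_left hcy hb
    have h3 : c = a * c + b * c := by rw [← add_mul, hab, one_mul]
    linarith

/-- the cone condition at all vertices gives the two-piece property -/
theorem tpp_of_cone (K : Surf V) (p : V → E3) (hinj : Function.Injective p)
    (hcone : ∀ v u, ∃ l : V → ℝ, (∀ w, 0 ≤ l w) ∧ (∀ w, l w ≠ 0 → K.Adj v w) ∧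
      p u - p v = ∑ w, l w • (p w - p v)) : TPP (K.map p) := by
  classical
  intro ν c
  have himg : Subtype.val '' {x : K.body | c ≤ (⟪ν, K.map p x⟫ : ℝ)} =
      {w | w ∈ K.body ∧ c ≤ ⟪ν, lin p w⟫} := by
    ext w
    constructor
    · rintro ⟨x, hx, rfl⟩
      exact ⟨x.2, hx⟩
    · rintro ⟨h1, h2⟩
      exact ⟨⟨w, h1⟩, h2, rfl⟩
  rw [← Topology.IsInducing.subtypeVal.isPreconnected_image, himg]
  rcases isEmpty_or_nonempty V with hV | hV
  · have : {w | w ∈ K.body ∧ c ≤ (⟪ν, lin p w⟫ : ℝ)} = ∅ := by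
      ext w
      simp only [Set.mem_ofPred_eq, Set.mem_empty_iff_false, iff_false, not_and]
      intro hw
      have := hw.2.1
      simp at this
    rw [this]
    exact isPreconnected_empty
  obtain ⟨μ, hμ⟩ := exists_generic p hinj
  -- heights
  set h : V → ℝ := fun v => ⟪ν, p v⟫ with hh
  set g : V → ℝ := fun v => ⟪μ, p v⟫ with hg
  -- the lexicographic maximum
  obtain ⟨u₁, -, hu₁⟩ := Finset.exists_max_image (Finset.univ : Finset V) h Finset.univ_nonempty
  obtain ⟨u, huM, hu⟩ := Finset.exists_max_image (Finset.univ.filter fun v => h v = h u₁) g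
    ⟨u₁, by simp⟩
  have huh : h u = h u₁ := by simpa using huM
  have hmax : ∀ v, h v ≤ h u := fun v => by rw [huh]; exact hu₁ v (Finset.mem_univ v)
  have hmax2 : ∀ v, h v = h u → g v ≤ g u := fun v hv => hu v (by simp [hv, huh])
  -- climbing
  have hclimb : ∀ v, v ≠ u → ∃ w, K.Adj v w ∧ h v ≤ h w ∧ (h v < h w ∨ g v < g w) := by
    intro v hv
    obtain ⟨l, hl0, hl1, hl2⟩ := hcone v u
    have e1 : h u - h v = ∑ w, l w * (h w - h v) := by
      have := congrArg (fun x : E3 => (⟪ν, x⟫ : ℝ)) hl2
      simpa [inner_sub_right, inner_sum, inner_smul_right, hh] using this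
    have e2 : g u - g v = ∑ w, l w * (g w - g v) := by
      have := congrArg (fun x : E3 => (⟪μ, x⟫ : ℝ)) hl2
      simpa [inner_sub_right, inner_sum, inner_smul_right, hg] using this
    rcases lt_or_eq_of_le (hmax v) with hlt | heq
    · by_contra hcon
      push Not at hcon
      have : ∑ w, l w * (h w - h v) ≤ 0 := by
        refine Finset.sum_nonpos fun w _ => ?_
        by_cases hw : l w = 0
        · rw [hw]; simp
        · have hA := hl1 w hw
          have hle : h w ≤ h v := by
            by_contra hc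
            push Not at hc
            have := (hcon w hA hc.le).1
            linarith
          exact mul_nonpos_of_nonneg_of_nonpos (hl0 w) (by linarith)
      linarith
    · have hz : ∀ w, l w * (h w - h v) = 0 := by
        have hle : ∀ w ∈ (Finset.univ : Finset V), l w * (h w - h v) ≤ 0 := fun w _ =>
          mul_nonpos_of_nonneg_of_nonpos (hl0 w) (by rw [heq]; linarith [hmax w])
        have hs : ∑ w, l w * (h w - h v) = 0 := by rw [← e1, heq, sub_self]
        have := (Finset.sum_eq_zero_iff_of_nonpos hle).1 hs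
        exact fun w => this w (Finset.mem_univ w)
      have hgv : g v < g u := lt_of_le_of_ne (hmax2 v heq) (hμ v u hv)
      have hpos : 0 < ∑ w, l w * (g w - g v) := by rw [← e2]; linarith
      obtain ⟨w, -, hw⟩ := Finset.exists_lt_of_sum_lt
        (f := fun _ => (0 : ℝ)) (by simpa using hpos : ∑ w : V, (0 : ℝ) < ∑ w, l w * (g w - g v))
      have hlw : l w ≠ 0 := fun h0 => by rw [h0] at hw; simp at hw
      have hlw' : 0 < l w := lt_of_le_of_ne (hl0 w) (Ne.symm hlw)
      refine ⟨w, hl1 w hlw, ?_, Or.inr ?_⟩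
      · have := hz w
        rcases mul_eq_zero.1 this with h1 | h1
        · exact absurd h1 hlw
        · linarith
      · by_contra hc
        push Not at hc
        have := mul_nonpos_of_nonneg_of_nonpos (hl0 w) (by linarith : g w - g v ≤ 0)
        linarith
  -- rank: the number of vertices which are lexicographically at least as high
  set S : Set (V → ℝ) := {w | w ∈ K.body ∧ c ≤ (⟪ν, lin p w⟫ : ℝ)} with hS
  have hvS : ∀ v, c ≤ h v → vtx v ∈ S := fun v hv =>
    ⟨vtx_mem K v, by rw [lin_vtx]; exact hv⟩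
  have hconn : ∀ n : ℕ, ∀ v, c ≤ h v →
      (Finset.univ.filter fun w => h v < h w ∨ (h v = h w ∧ g v < g w)).card ≤ n →
      ∃ t ⊆ S, vtx u ∈ t ∧ vtx v ∈ t ∧ IsPreconnected t := by
    intro n
    induction n with
    | zero =>
      intro v hv hn
      by_cases huv : v = u
      · subst huv
        exact ⟨{vtx v}, by simpa using hvS v hv, by simp, by simp, isPreconnected_singleton⟩
      · obtain ⟨w, -, h1, h2⟩ := hclimb v huv
        have hmem : w ∈ Finset.univ.filter fun w => h v < h w ∨ (h v = h w ∧ g v < g w) := by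
          simp only [Finset.mem_filter, Finset.mem_univ, true_and]
          rcases h2 with h2 | h2
          · exact Or.inl h2
          · rcases lt_or_eq_of_le h1 with h3 | h3
            · exact Or.inl h3
            · exact Or.inr ⟨h3, h2⟩
        have := Finset.card_pos.2 ⟨w, hmem⟩
        omega
    | succ n ih =>
      intro v hv hn
      by_cases huv : v = u
      · subst huv
        exact ⟨{vtx v}, by simpa using hvS v hv, by simp, by simp, isPreconnected_singleton⟩
      · obtain ⟨w, hA, h1, h2⟩ := hclimb v huv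
        have hlt : h v < h w ∨ (h v = h w ∧ g v < g w) := by
          rcases h2 with h2 | h2
          · exact Or.inl h2
          · rcases lt_or_eq_of_le h1 with h3 | h3
            · exact Or.inl h3
            · exact Or.inr ⟨h3, h2⟩
        have hsub : (Finset.univ.filter fun x => h w < h x ∨ (h w = h x ∧ g w < g x)) ⊂
            (Finset.univ.filter fun x => h v < h x ∨ (h v = h x ∧ g v < g x)) := by
          rw [Finset.ssubset_iff_of_subset]
          · refine ⟨w, by simpa using hlt, by simp⟩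
          · intro x hx
            simp only [Finset.mem_filter, Finset.mem_univ, true_and] at hx ⊢
            rcases hx with hx | ⟨hx1, hx2⟩ <;> rcases hlt with hy | ⟨hy1, hy2⟩
            · left; linarith
            · left; linarith
            · left; linarith
            · right; exact ⟨by linarith, by linarith⟩
        have hcard := Finset.card_lt_card hsub
        have hcw : c ≤ h w := by linarith
        obtain ⟨t, ht1, ht2, ht3, ht4⟩ := ih w hcw (by omega)
        obtain ⟨-, T, hT, hvT, hwT⟩ := hA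
        have hseg := seg_sub K p ν c (x := vtx w) (y := vtx v) (vtx_mem K w) (vtx_mem K v) hT
          (fun a ha => by
            have : a ≠ w := fun h => ha (by rw [h]; exact hwT)
            simp [vtx, Pi.single_eq_of_ne this])
          (fun a ha => by
            have : a ≠ v := fun h => ha (by rw [h]; exact hvT)
            simp [vtx, Pi.single_eq_of_ne this])
          (by rw [lin_vtx]; exact hcw) (by rw [lin_vtx]; exact hv)
        refine ⟨t ∪ segment ℝ (vtx w) (vtx v), union_subset ht1 hseg, Or.inl ht2,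
          Or.inr (right_mem_segment ℝ _ _), ?_⟩
        exact IsPreconnected.union (vtx w) ht3 (left_mem_segment ℝ _ _) ht4
          (convex_segment _ _).isPreconnected
  by_cases hcu : c ≤ h u
  swap
  · have : S = ∅ := by
      ext w
      simp only [hS, Set.mem_ofPred_eq, Set.mem_empty_iff_false, iff_false, not_and, not_le]
      intro hw
      have e : (⟪ν, lin p w⟫ : ℝ) = ∑ v, w v * h v := by
        simp [lin, inner_sum, inner_smul_right, hh]
      have e2 : ∑ v, w v * h v ≤ ∑ v, w v * h u :=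
        Finset.sum_le_sum fun v _ => mul_le_mul_of_nonneg_left (hmax v) (hw.1 v)
      rw [← Finset.sum_mul, hw.2.1, one_mul] at e2
      push Not at hcu
      linarith
    rw [this]
    exact isPreconnected_empty
  refine isPreconnected_of_forall (vtx u) fun x hx => ?_
  obtain ⟨hxb, hxc⟩ := hx
  obtain ⟨hx0, hx1, T, hT, hxT⟩ := id hxb
  -- a vertex of the carrier at least as high as x
  have e : (⟪ν, lin p x⟫ : ℝ) = ∑ v, x v * h v := by
    simp [lin, inner_sum, inner_smul_right, hh]
  obtain ⟨a, ha1, ha2⟩ : ∃ a, x a ≠ 0 ∧ (⟪ν, lin p x⟫ : ℝ) ≤ h a := by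
    by_contra hcon
    push Not at hcon
    have h1 : ∀ v ∈ (Finset.univ : Finset V), x v * h v ≤ x v * ⟪ν, lin p x⟫ := by
      intro v _
      by_cases hv : x v = 0
      · rw [hv]; simp
      · exact mul_le_mul_of_nonneg_left (hcon v hv).le (hx0 v)
    have h2 : ∃ v, x v ≠ 0 := by
      by_contra hc
      push Not at hc
      rw [Finset.sum_congr rfl (fun v _ => hc v)] at hx1
      simp at hx1
    obtain ⟨v0, hv0⟩ := h2
    have h3 : ∑ v, x v * h v < ∑ v, x v * ⟪ν, lin p x⟫ :=
      Finset.sum_lt_sum h1 ⟨v0, Finset.mem_univ _,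
        mul_lt_mul_of_pos_left (hcon v0 hv0) (lt_of_le_of_ne (hx0 v0) (Ne.symm hv0))⟩
    rw [← Finset.sum_mul, hx1, one_mul, ← e] at h3
    exact lt_irrefl _ h3
  have haT : a ∈ T := by
    by_contra hc
    exact ha1 (hxT a hc)
  have hca : c ≤ h a := hxc.trans ha2
  obtain ⟨t, ht1, ht2, ht3, ht4⟩ := hconn _ a hca le_rfl
  have hseg := seg_sub K p ν c (x := vtx a) (y := x) (vtx_mem K a) hxb hT
    (fun b hb => by
      have : b ≠ a := fun h => hb (by rw [h]; exact haT)
      simp [vtx, Pi.single_eq_of_ne this]) hxT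
    (by rw [lin_vtx]; exact hca) hxc
  refine ⟨t ∪ segment ℝ (vtx a) x, union_subset ht1 hseg, Or.inl ht2,
    Or.inr (right_mem_segment ℝ _ _), ?_⟩
  exact IsPreconnected.union (vtx a) ht3 (left_mem_segment ℝ _ _) ht4
    (convex_segment _ _).isPreconnected

/-! ### embedded stars -/

/-- separation certificates give embedded stars -/
theorem embStars_of_sep (K : Surf V) (p : V → E3)
    (hnd : ∀ t ∈ K.tri, ∀ x : V → ℝ, (∀ v, v ∉ t → x v = 0) → ∑ v, x v = 0 →
      ∑ v, x v • p v = 0 → x = 0)
    (hsep : ∀ t ∈ K.tri, ∀ t' ∈ K.tri, t ≠ t' → (t ∩ t').Nonempty → ∃ (n : E3) (c : ℝ),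
      (∀ w ∈ t, (⟪n, p w⟫ : ℝ) ≤ c ∧ (w ∉ t' → (⟪n, p w⟫ : ℝ) < c)) ∧
      ∀ w ∈ t', c ≤ (⟪n, p w⟫ : ℝ) ∧ (w ∉ t → c < (⟪n, p w⟫ : ℝ))) : K.EmbStars p := by
  classical
  have key : ∀ t ∈ K.tri, ∀ x y : V → ℝ, (∀ v, v ∉ t → x v = 0) → (∀ v, v ∉ t → y v = 0) →
      ∑ v, x v = 1 → ∑ v, y v = 1 → lin p x = lin p y → x = y := by
    intro t ht x y hx hy hx1 hy1 h
    have := hnd t ht (x - y) (fun v hv => by simp [hx v hv, hy v hv])
      (by simp [Finset.sum_sub_distrib, hx1, hy1])
      (by
        simp only [Pi.sub_apply, sub_smul, Finset.sum_sub_distrib]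
        exact sub_eq_zero.2 h)
    exact sub_eq_zero.1 this
  intro v x hx y hy hxy
  obtain ⟨hx0, hx1, t, ht, hvt, hxt⟩ := hx
  obtain ⟨hy0, hy1, t', ht', hvt', hyt⟩ := hy
  by_cases htt : t = t'
  · subst htt
    exact key t ht x y hxt hyt hx1 hy1 hxy
  obtain ⟨n, c, h1, h2⟩ := hsep t ht t' ht' htt ⟨v, Finset.mem_inter.2 ⟨hvt, hvt'⟩⟩
  have ex : (⟪n, lin p x⟫ : ℝ) = ∑ w, x w * ⟪n, p w⟫ := by
    simp [lin, inner_sum, inner_smul_right]
  have ey : (⟪n, lin p y⟫ : ℝ) = ∑ w, y w * ⟪n, p w⟫ := by
    simp [lin, inner_sum, inner_smul_right]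
  have hxl : ∀ w ∈ (Finset.univ : Finset V), x w * (⟪n, p w⟫ - c) ≤ 0 := by
    intro w _
    by_cases hw : w ∈ t
    · exact mul_nonpos_of_nonneg_of_nonpos (hx0 w) (by linarith [(h1 w hw).1])
    · rw [hxt w hw]; simp
  have hyl : ∀ w ∈ (Finset.univ : Finset V), 0 ≤ y w * (⟪n, p w⟫ - c) := by
    intro w _
    by_cases hw : w ∈ t'
    · exact mul_nonneg (hy0 w) (by linarith [(h2 w hw).1])
    · rw [hyt w hw]; simp
  have sx : ∑ w, x w * (⟪n, p w⟫ - c) = ⟪n, lin p x⟫ - c := by
    simp only [mul_sub, Finset.sum_sub_distrib, ← Finset.sum_mul, hx1, ex, one_mul]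
  have sy : ∑ w, y w * (⟪n, p w⟫ - c) = ⟪n, lin p y⟫ - c := by
    simp only [mul_sub, Finset.sum_sub_distrib, ← Finset.sum_mul, hy1, ey, one_mul]
  have hx2 := Finset.sum_nonpos hxl
  have hy2 := Finset.sum_nonneg hyl
  rw [sx] at hx2
  rw [sy, ← hxy] at hy2
  have hz : (⟪n, lin p x⟫ : ℝ) - c = 0 := le_antisymm hx2 hy2
  have hx3 := (Finset.sum_eq_zero_iff_of_nonpos hxl).1 (by rw [sx, hz])
  have hy3 := (Finset.sum_eq_zero_iff_of_nonneg hyl).1 (by rw [sy, ← hxy, hz])
  have hyt2 : ∀ w, w ∉ t → y w = 0 := by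
    intro w hw
    by_cases hw' : w ∈ t'
    · have h4 := (h2 w hw').2 hw
      rcases mul_eq_zero.1 (hy3 w (Finset.mem_univ w)) with h5 | h5
      · exact h5
      · linarith
    · exact hyt w hw'
  exact key t ht x y hxt hyt2 hx1 hy1 hxy

end Pool.Agent.TSZ
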