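import Pool.Agent.TSZ.Cert

/-!
# TSZ: integer certificates

Everything is reduced to statements about integers which can be decided by evaluation.
-/

set_option autoImplicit false

open scoped RealInnerProductSpace

namespace Pool.Agent.TSZ

open Pool.Agent.TSM

/-- integer vectors -/
abbrev Z3 := ℤ × ℤ × ℤ

/-- scalar product of integer vectors -/
def zdot (n x : Z3) : ℤ := n.1 * x.1 + n.2.1 * x.2.1 + n.2.2 * x.2.2

/-- cross product of integer vectors -/
def zcross (a b : Z3) : Z3 :=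
  (a.2.1 * b.2.2 - a.2.2 * b.2.1, a.2.2 * b.1 - a.1 * b.2.2, a.1 * b.2.1 - a.2.1 * b.1)

/-- the point of Euclidean space with the given integer coordinates -/
noncomputable def toE (x : Z3) : E3 := !₂[(x.1 : ℝ), (x.2.1 : ℝ), (x.2.2 : ℝ)]

theorem toE_zero (x : Z3) : toE x 0 = x.1 := rfl

theorem toE_one (x : Z3) : toE x 1 = x.2.1 := rfl

theorem toE_two (x : Z3) : toE x 2 = x.2.2 := rfl

theorem inner_toE (n x : Z3) : (⟪toE n, toE x⟫ : ℝ) = zdot n x := by
  rw [PiLp.inner_apply, Fin.sum_univ_three]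
  simp only [toE_zero, toE_one, toE_two, RCLike.inner_apply, conj_trivial, zdot]
  push_cast
  ring

theorem toE_inj : Function.Injective toE := by
  intro x y h
  have h0 := congrArg (fun z : E3 => z 0) h
  have h1 := congrArg (fun z : E3 => z 1) h
  have h2 := congrArg (fun z : E3 => z 2) h
  simp only [toE_zero, toE_one, toE_two, Int.cast_inj] at h0 h1 h2
  exact Prod.ext h0 (Prod.ext h1 h2)

variable {V : Type} [Fintype V] [DecidableEq V]

/-- the vertex set of a triangle -/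
def tset (t : V × V × V) : Finset V := {t.1, t.2.1, t.2.2}

/-- the triangles with the given list of vertices -/
def mkTri {m : ℕ} (T : Fin m → V × V × V) : Finset (Finset V) :=
  Finset.univ.image fun i => tset (T i)

/-- a triangle with non-vanishing normal is nondegenerate -/
theorem nondeg (P : V → Z3) (a b c : V) (hab : a ≠ b) (hac : a ≠ c) (hbc : b ≠ c)
    (h : zcross (P b - P a) (P c - P a) ≠ 0) (x : V → ℝ)
    (hx : ∀ v, v ∉ tset (a, b, c) → x v = 0) (h1 : ∑ v, x v = 0)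
    (h2 : ∑ v, x v • toE (P v) = 0) : x = 0 := by
  have e1 : ∑ v, x v = ∑ v ∈ ({a, b, c} : Finset V), x v := by
    refine (Finset.sum_subset (Finset.subset_univ _) fun v _ hv => hx v hv).symm
  have e2 : ∑ v, x v • toE (P v) = ∑ v ∈ ({a, b, c} : Finset V), x v • toE (P v) := by
    refine (Finset.sum_subset (Finset.subset_univ _) fun v _ hv => ?_).symm
    rw [hx v hv, zero_smul]
  have hb : b ∉ ({c} : Finset V) := by simpa using hbc
  have ha : a ∉ ({b, c} : Finset V) := by simp [hab, hac]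
  rw [Finset.sum_insert ha, Finset.sum_insert hb, Finset.sum_singleton] at e1 e2
  rw [e1] at h1
  rw [e2] at h2
  have c0 := congrArg (fun z : E3 => z 0) h2
  have c1 := congrArg (fun z : E3 => z 1) h2
  have c2 := congrArg (fun z : E3 => z 2) h2
  simp only [PiLp.add_apply, PiLp.smul_apply, smul_eq_mul, toE_zero, toE_one, toE_two,
    PiLp.zero_apply] at c0 c1 c2
  have hA : x a = -(x b + x c) := by linarith
  rw [hA] at c0 c1 c2
  have key : ∀ d1 d2 e1 e2 : ℝ, x b * d1 + x c * e1 = 0 → x b * d2 + x c * e2 = 0 →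
      d1 * e2 - d2 * e1 ≠ 0 → x b = 0 ∧ x c = 0 := by
    intro d1 d2 e1 e2 k1 k2 k3
    constructor
    · have : x b * (d1 * e2 - d2 * e1) = 0 := by
        have : x b * (d1 * e2 - d2 * e1) =
          (x b * d1 + x c * e1) * e2 - (x b * d2 + x c * e2) * e1 := by ring
        rw [this, k1, k2]; ring
      exact (mul_eq_zero.1 this).resolve_right k3
    · have : x c * (d1 * e2 - d2 * e1) = 0 := by
        have : x c * (d1 * e2 - d2 * e1) =
          (x b * d2 + x c * e2) * d1 - (x b * d1 + x c * e1) * d2 := by ring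
        rw [this, k1, k2]; ring
      exact (mul_eq_zero.1 this).resolve_right k3
  have hbc0 : x b = 0 ∧ x c = 0 := by
    by_contra hcon
    apply h
    have g : ∀ d1 d2 e1 e2 : ℤ, x b * d1 + x c * e1 = 0 → x b * d2 + x c * e2 = 0 →
        d1 * e2 - d2 * e1 = 0 := by
      intro d1 d2 e1 e2 k1 k2
      by_contra k3
      refine hcon (key d1 d2 e1 e2 k1 k2 ?_)
      intro k4
      apply k3
      exact_mod_cast k4
    have f0 : x b * ((P b).1 - (P a).1 : ℤ) + x c * ((P c).1 - (P a).1 : ℤ) = 0 := by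
      push_cast; linarith
    have f1 : x b * ((P b).2.1 - (P a).2.1 : ℤ) + x c * ((P c).2.1 - (P a).2.1 : ℤ) = 0 := by
      push_cast; linarith
    have f2 : x b * ((P b).2.2 - (P a).2.2 : ℤ) + x c * ((P c).2.2 - (P a).2.2 : ℤ) = 0 := by
      push_cast; linarith
    have r0 := g _ _ _ _ f1 f2
    have r1 := g _ _ _ _ f2 f0
    have r2 := g _ _ _ _ f0 f1
    simp only [zcross, Prod.fst_sub, Prod.snd_sub]
    refine Prod.ext ?_ (Prod.ext ?_ ?_)
    · exact r0
    · exact r1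
    · exact r2
  funext v
  by_cases hv : v ∈ tset (a, b, c)
  · simp only [tset, Finset.mem_insert, Finset.mem_singleton] at hv
    rcases hv with rfl | rfl | rfl
    · rw [hA, hbc0.1, hbc0.2]; simp
    · exact hbc0.1
    · exact hbc0.2
  · exact hx v hv

/-- the plane `⟨n, x⟩ = c` separates the triangles and touches them in the common face -/
def Sep (P : V → Z3) (s t : Finset V) (n : Z3 × ℤ) : Prop :=
  (∀ w ∈ s, zdot n.1 (P w) ≤ n.2 ∧ (w ∉ t → zdot n.1 (P w) < n.2)) ∧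
    ∀ w ∈ t, n.2 ≤ zdot n.1 (P w) ∧ (w ∉ s → n.2 < zdot n.1 (P w))

instance (P : V → Z3) (s t : Finset V) (n : Z3 × ℤ) : Decidable (Sep P s t n) := by
  unfold Sep; infer_instance

theorem Sep.real {P : V → Z3} {s t : Finset V} {n : Z3 × ℤ} (h : Sep P s t n) :
    (∀ w ∈ s, (⟪toE n.1, toE (P w)⟫ : ℝ) ≤ n.2 ∧ (w ∉ t → (⟪toE n.1, toE (P w)⟫ : ℝ) < n.2)) ∧
    ∀ w ∈ t, (n.2 : ℝ) ≤ (⟪toE n.1, toE (P w)⟫ : ℝ) ∧
      (w ∉ s → (n.2 : ℝ) < (⟪toE n.1, toE (P w)⟫ : ℝ)) := by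
  simp only [inner_toE, Int.cast_le, Int.cast_lt]
  exact h

/-- integer certificates for embedded stars -/
theorem embStars_int {m : ℕ} (K : Surf V) (T : Fin m → V × V × V) (hK : K.tri = mkTri T)
    (P : V → Z3) (hd : ∀ i, (T i).1 ≠ (T i).2.1 ∧ (T i).1 ≠ (T i).2.2 ∧ (T i).2.1 ≠ (T i).2.2 ∧
      zcross (P (T i).2.1 - P (T i).1) (P (T i).2.2 - P (T i).1) ≠ 0)
    (N : Fin m → Fin m → Z3 × ℤ)
    (hN : ∀ i j, i < j → (tset (T i) ∩ tset (T j)).Nonempty →
      Sep P (tset (T i)) (tset (T j)) (N i j)) : K.EmbStars fun v => toE (P v) := by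
  refine embStars_of_sep K _ ?_ ?_
  · intro t ht x hx h1 h2
    rw [hK] at ht
    obtain ⟨i, -, rfl⟩ := Finset.mem_image.1 ht
    obtain ⟨d1, d2, d3, d4⟩ := hd i
    exact nondeg P _ _ _ d1 d2 d3 d4 x hx h1 h2
  · intro t ht t' ht' htt hne
    rw [hK] at ht ht'
    obtain ⟨i, -, rfl⟩ := Finset.mem_image.1 ht
    obtain ⟨j, -, rfl⟩ := Finset.mem_image.1 ht'
    rcases lt_trichotomy i j with hij | hij | hij
    · exact ⟨toE (N i j).1, (N i j).2, (hN i j hij hne).real⟩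
    · subst hij
      exact absurd rfl htt
    · have hne' : (tset (T j) ∩ tset (T i)).Nonempty := by rwa [Finset.inter_comm]
      obtain ⟨k1, k2⟩ := (hN j i hij hne').real
      refine ⟨-toE (N j i).1, -(N j i).2, fun w hw => ⟨?_, fun hw' => ?_⟩, fun w hw => ⟨?_, fun hw' => ?_⟩⟩
      · rw [inner_neg_left]; linarith [(k2 w hw).1]
      · rw [inner_neg_left]; linarith [(k2 w hw).2 hw']
      · rw [inner_neg_left]; linarith [(k1 w hw).1]
      · rw [inner_neg_left]; linarith [(k1 w hw).2 hw']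

/-- a cone certificate: `(D, (a, x), (b, y), (c, z))` says that `D (p u - p v)` is
`x (p a - p v) + y (p b - p v) + z (p c - p v)` -/
abbrev CC (V : Type) := ℤ × (V × ℤ) × (V × ℤ) × (V × ℤ)

/-- validity of a cone certificate -/
def CCok {m : ℕ} (T : Fin m → V × V × V) (P : V → Z3) (v u : V) (q : CC V) : Prop :=
  0 < q.1 ∧ 0 ≤ q.2.1.2 ∧ 0 ≤ q.2.2.1.2 ∧ 0 ≤ q.2.2.2.2 ∧
    (q.2.1.1 ≠ v ∧ ∃ i, v ∈ tset (T i) ∧ q.2.1.1 ∈ tset (T i)) ∧
    (q.2.2.1.1 ≠ v ∧ ∃ i, v ∈ tset (T i) ∧ q.2.2.1.1 ∈ tset (T i)) ∧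
    (q.2.2.2.1 ≠ v ∧ ∃ i, v ∈ tset (T i) ∧ q.2.2.2.1 ∈ tset (T i)) ∧
    q.1 * ((P u).1 - (P v).1) = q.2.1.2 * ((P q.2.1.1).1 - (P v).1) +
      q.2.2.1.2 * ((P q.2.2.1.1).1 - (P v).1) + q.2.2.2.2 * ((P q.2.2.2.1).1 - (P v).1) ∧
    q.1 * ((P u).2.1 - (P v).2.1) = q.2.1.2 * ((P q.2.1.1).2.1 - (P v).2.1) +
      q.2.2.1.2 * ((P q.2.2.1.1).2.1 - (P v).2.1) +
      q.2.2.2.2 * ((P q.2.2.2.1).2.1 - (P v).2.1) ∧
    q.1 * ((P u).2.2 - (P v).2.2) = q.2.1.2 * ((P q.2.1.1).2.2 - (P v).2.2) +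
      q.2.2.1.2 * ((P q.2.2.1.1).2.2 - (P v).2.2) +
      q.2.2.2.2 * ((P q.2.2.2.1).2.2 - (P v).2.2)

instance {m : ℕ} (T : Fin m → V × V × V) (P : V → Z3) (v u : V) (q : CC V) :
    Decidable (CCok T P v u q) := by
  unfold CCok; infer_instance

/-- integer certificates for the two-piece property -/
theorem tpp_int {m : ℕ} (K : Surf V) (T : Fin m → V × V × V) (hK : K.tri = mkTri T)
    (P : V → Z3) (hinj : Function.Injective P) (C : V → V → CC V)
    (hC : ∀ v u, CCok T P v u (C v u)) : TPP (K.map fun v => toE (P v)) := by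
  refine tpp_of_cone K _ (fun u v h => hinj (toE_inj h)) ?_
  intro v u
  obtain ⟨hD, hx, hy, hz, ⟨ha1, ha2⟩, ⟨hb1, hb2⟩, ⟨hc1, hc2⟩, e0, e1, e2⟩ := hC v u
  generalize (C v u) = q at *
  obtain ⟨D, ⟨a, x⟩, ⟨b, y⟩, ⟨c, z⟩⟩ := q
  simp only at hD hx hy hz ha1 ha2 hb1 hb2 hc1 hc2 e0 e1 e2
  have hDr : (0 : ℝ) < D := by exact_mod_cast hD
  have hxr : (0 : ℝ) ≤ x := by exact_mod_cast hx
  have hyr : (0 : ℝ) ≤ y := by exact_mod_cast hy
  have hzr : (0 : ℝ) ≤ z := by exact_mod_cast hz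
  have adj : ∀ w, w ≠ v → (∃ i, v ∈ tset (T i) ∧ w ∈ tset (T i)) → K.Adj v w := by
    rintro w hw ⟨i, h1, h2⟩
    exact ⟨hw.symm, tset (T i), by rw [hK]; exact Finset.mem_image_of_mem _ (Finset.mem_univ _),
      h1, h2⟩
  refine ⟨fun w => (if w = a then (x : ℝ) / D else 0) + (if w = b then (y : ℝ) / D else 0) +
    (if w = c then (z : ℝ) / D else 0), fun w => ?_, fun w hw => ?_, ?_⟩
  · have p1 : (0 : ℝ) ≤ x / D := div_nonneg hxr hDr.le
    have p2 : (0 : ℝ) ≤ y / D := div_nonneg hyr hDr.le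
    have p3 : (0 : ℝ) ≤ z / D := div_nonneg hzr hDr.le
    refine add_nonneg (add_nonneg ?_ ?_) ?_ <;> split_ifs <;> first | assumption | exact le_rfl
  · by_cases h1 : w = a
    · rw [h1]; exact adj a ha1 ha2
    · by_cases h2 : w = b
      · rw [h2]; exact adj b hb1 hb2
      · by_cases h3 : w = c
        · rw [h3]; exact adj c hc1 hc2
        · exact absurd (by simp [h1, h2, h3]) hw
  · simp only [add_smul, ite_smul, zero_smul, Finset.sum_add_distrib, Finset.sum_ite_eq',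
      Finset.mem_univ, if_true]
    have f0 : (D : ℝ) * ((P u).1 - (P v).1) = x * ((P a).1 - (P v).1) +
        y * ((P b).1 - (P v).1) + z * ((P c).1 - (P v).1) := by exact_mod_cast e0
    have f1 : (D : ℝ) * ((P u).2.1 - (P v).2.1) = x * ((P a).2.1 - (P v).2.1) +
        y * ((P b).2.1 - (P v).2.1) + z * ((P c).2.1 - (P v).2.1) := by exact_mod_cast e1
    have f2 : (D : ℝ) * ((P u).2.2 - (P v).2.2) = x * ((P a).2.2 - (P v).2.2) +
        y * ((P b).2.2 - (P v).2.2) + z * ((P c).2.2 - (P v).2.2) := by exact_mod_cast e2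
    ext i
    fin_cases i
    · show toE (P u) 0 - toE (P v) 0 = (x : ℝ) / D * (toE (P a) 0 - toE (P v) 0) +
        (y : ℝ) / D * (toE (P b) 0 - toE (P v) 0) + (z : ℝ) / D * (toE (P c) 0 - toE (P v) 0)
      simp only [toE_zero]
      field_simp
      linarith
    · show toE (P u) 1 - toE (P v) 1 = (x : ℝ) / D * (toE (P a) 1 - toE (P v) 1) +
        (y : ℝ) / D * (toE (P b) 1 - toE (P v) 1) + (z : ℝ) / D * (toE (P c) 1 - toE (P v) 1)
      simp only [toE_one]
      field_simp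
      linarith
    · show toE (P u) 2 - toE (P v) 2 = (x : ℝ) / D * (toE (P a) 2 - toE (P v) 2) +
        (y : ℝ) / D * (toE (P b) 2 - toE (P v) 2) + (z : ℝ) / D * (toE (P c) 2 - toE (P v) 2)
      simp only [toE_two]
      field_simp
      linarith

omit [Fintype V] in
/-- a link cycle from an equality of finite sets -/
theorem isLinkCycle_of {m n : ℕ} [NeZero n] (T : Fin m → V × V × V) (v : V) (c : ZMod n → V)
    (h3 : 3 ≤ n) (hinj : Function.Injective c) (hne : ∀ i, c i ≠ v)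
    (h1 : ∀ i, ({v, c i, c (i + 1)} : Finset V) ∈ mkTri T)
    (h2 : ∀ k, v ∈ tset (T k) → ∃ i, tset (T k) = {v, c i, c (i + 1)}) :
    IsLinkCycle (mkTri T) v n c := by
  refine ⟨h3, hinj, hne, fun t => ⟨?_, ?_⟩⟩
  · rintro ⟨ht, hv⟩
    obtain ⟨k, -, rfl⟩ := Finset.mem_image.1 ht
    exact h2 k hv
  · rintro ⟨i, rfl⟩
    exact ⟨h1 i, by simp⟩

end Pool.Agent.TSZ
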