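import Pool.Agent.TSZ.Chk

/-!
# TSZ: an explicit tight polyhedral immersion of the projective plane with one handle

`K13` is a triangulation with 13 vertices and 28 triangles of a closed surface of Euler
characteristic `-1` (the projective plane with one handle).  `P13` are integer positions of the
vertices with all coordinates at most 5 in absolute value.  The simplexwise linear map is
injective on all closed vertex stars and has the two-piece property.  All checks are evaluations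
with integers.
-/

set_option autoImplicit false

open scoped RealInnerProductSpace

namespace Pool.Agent.TSZ

open Pool.Agent.TSM

/-- the triangles -/
def T13 : Fin 28 → Fin 13 × Fin 13 × Fin 13 := ![
  (0, 1, 10), (0, 1, 12), (0, 2, 4), (0, 2, 9), (0, 4, 10), (0, 9, 12),
  (1, 3, 6), (1, 3, 9), (1, 5, 6), (1, 5, 12), (1, 9, 10), (2, 4, 5),
  (2, 5, 6), (2, 6, 7), (2, 7, 8), (2, 8, 9), (3, 6, 8), (3, 8, 9),
  (4, 5, 10), (5, 10, 11), (5, 11, 12), (6, 7, 9), (6, 8, 12), (6, 9, 12),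
  (7, 8, 11), (7, 9, 10), (7, 10, 11), (8, 11, 12)]

/-- the positions of the vertices -/
def P13 : Fin 13 → Z3 := ![
  (1, 0, 0), (1, -1, -2), (2, 0, 2), (1, 0, -1), (1, -1, 0), (1, -2, -2),
  (0, 1, -3), (1, -1, 3), (3, 0, 3), (-3, -1, -3), (0, -4, -1), (1, -4, -1),
  (2, 2, -5)]

/-- separating planes for pairs of triangles -/
def N13L : List (List (Z3 × ℤ)) := [
   [0, ((1, 0, 0), 1), ((3, -1, 4), 3), ((-25, 15, 22), -25), ((0, -1, 4), 0),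
    ((-52, 51, -6), -52), ((0, 7, -5), 3), ((-12, 20, -15), -2), ((1, -2, -15), 33),
    ((7, -2, -4), 17), ((-4, -3, -13), 25), 0, 0, 0, 0, 0, 0, 0, ((6, -2, 1), 7),
    ((13, -9, -9), 45), 0, 0, 0, 0, 0, ((-21, -4, 14), 2), ((29, -24, 23), 73)],
   [0, 0, ((-1, -5, 5), -1), ((-47, 6, 32), -47), ((-3, -1, 4), -3), ((-29, 27, 5), -29),
    ((-24, 3, -2), -23), ((-24, 3, -2), -23), ((-15, -6, -5), 1), ((0, -1, -1), 3),
    ((-7, -19, -9), 30), 0, 0, 0, 0, 0, 0, 0, 0, 0, ((-3, -13, -17), 53), 0, ((-12, 47, 15), -5),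
    ((-53, 29, -18), 42), 0, 0, 0, ((134, -43, -10), 232)],
   [0, 0, 0, ((-6, 5, 3), -6), ((0, 0, -1), 0), ((-4, 6, -1), -4), 0, 0, 0, 0, 0,
    ((1, -1, 0), 2), ((54, 7, -24), 60), ((-7, 8, 4), -6), ((-1, -4, 4), 6), ((-13, -10, 14), 2),
    0, 0, ((6, -5, -5), 11)],
   [0, 0, 0, 0, ((8, -2, -7), 8), ((1, -1, -1), 1), 0, ((10, -4, -15), 19), 0, 0,
    ((19, -34, -26), 55), ((7, -22, 3), 20), ((20, 1, -9), 22), ((-24, 39, 17), -14),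
    ((-3, -4, 5), 4), ((-3, -5, 4), 2), 0, ((17, -44, -9), 20), 0, 0, 0, ((-28, 43, 19), -16), 0,
    ((-33, 73, -3), 35), 0, ((-23, -42, 23), 42)],
   [0, 0, 0, 0, 0, ((-11, 15, -5), -11), 0, 0, 0, 0, ((0, 0, -1), 1), ((6, -1, -1), 7), 0, 0, 0,
    0, 0, 0, ((5, -1, -2), 6), ((10, -3, -12), 24), 0, 0, 0, 0, 0, ((-58, -8, 43), -11),
    ((9, -14, 15), 41)],
   [0, 0, 0, 0, 0, 0, 0, ((24, -61, -14), 31), 0, ((32, -40, -17), 69), ((12, -52, -11), 49), 0,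
    0, 0, 0, ((-7, 1, 7), -1), 0, ((53, -141, -26), 60), 0, 0, ((13, -19, -11), 43),
    ((-15, 24, 11), -12), ((-12, 47, 15), -5), ((-23, 41, 4), 16), 0, ((-29, -83, 35), 65), 0,
    ((31, -26, -8), 50)],
   [0, 0, 0, 0, 0, 0, 0, ((-4, -5, 5), -9), ((0, -1, -2), 5), ((3, -1, -2), 8),
    ((-10, -25, -6), 27), 0, ((-57, -16, 20), -76), ((-27, 6, 14), -36), 0, 0, ((-1, 1, 1), -2),
    ((-1, 0, 1), -2), 0, 0, 0, ((-52, 25, 29), -62), ((25, 45, 3), 36), ((-5, -1, -14), 41)],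
   [0, 0, 0, 0, 0, 0, 0, 0, ((4, -1, -8), 21), ((31, -15, -22), 90), ((0, -1, 0), 1), 0, 0, 0, 0,
    ((-23, -15, 33), -15), ((6, 17, 1), 5), ((-1, 0, 2), -3), 0, 0, 0, ((-30, 52, 27), -43), 0,
    ((-6, 23, -14), 37), 0, ((-31, -48, 47), 0)],
   [0, 0, 0, 0, 0, 0, 0, 0, 0, ((3, 0, -1), 5), ((-4, 1, 8), -21), ((-14, -17, 26), -32),
    ((-28, -3, 19), -60), ((-26, 16, 25), -59), 0, 0, ((-35, 2, 28), -82), 0, ((-1, -2, 8), -13),
    ((-1, -2, 0), 3), ((5, -7, -11), 41), ((-50, 19, 43), -110), ((16, 33, 15), -12),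
    ((-7, -1, -19), 56)],
   [0, 0, 0, 0, 0, 0, 0, 0, 0, 0, ((-30, 9, 20), -79), ((12, -12, 11), 14), ((-40, -3, 22), -78),
    0, 0, 0, 0, 0, ((3, -1, 3), -1), ((0, -3, -2), 10), ((1, -1, -1), 5), 0,
    ((-13, 41, 25), -69), ((-28, 21, -1), -9), 0, 0, 0, ((141, -17, 17), 163)],
   [0, 0, 0, 0, 0, 0, 0, 0, 0, 0, 0, 0, 0, 0, 0, ((-37, 18, 44), -39), 0, ((-14, 37, 25), -70),
    ((17, -4, 7), 9), ((16, -10, -9), 49), 0, ((-19, 49, 35), -97), 0, ((-9, 22, 2), -1), 0,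
    ((-21, -5, 24), -4), ((5, -4, 8), 8)],
   [0, 0, 0, 0, 0, 0, 0, 0, 0, 0, 0, 0, ((14, 17, -12), 4), ((-17, 14, 6), -22),
    ((-3, -11, 13), 20), ((-13, -10, 14), 2), 0, 0, ((-5, -2, 1), -3), ((0, -4, -1), 10),
    ((5, -5, -7), 29)],
   [0, 0, 0, 0, 0, 0, 0, 0, 0, 0, 0, 0, 0, ((-2, 1, 1), -2), ((-1, -5, 8), 14),
    ((-31, -30, 34), 6), ((36, 9, -13), 48), 0, ((-4, -3, 2), -2), ((-11, -22, -23), 79),
    ((16, -32, -49), 178), ((-52, 25, 21), -38), ((12, 19, -2), 25), ((-7, -1, -19), 56)],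
   [0, 0, 0, 0, 0, 0, 0, 0, 0, 0, 0, 0, 0, 0, ((1, -1, 0), 2), ((24, -39, -17), 14),
    ((34, -15, -18), 39), 0, 0, 0, 0, ((-2, 2, 1), -1), ((7, 6, -2), 12), ((12, -31, -20), 29),
    ((21, -31, 1), 55), ((-20, -49, 0), 29), ((7, -64, 18), 125)],
   [0, 0, 0, 0, 0, 0, 0, 0, 0, 0, 0, 0, 0, 0, 0, ((3, -2, -3), 0), ((24, -12, -17), 21),
    ((12, -12, -11), 3), 0, 0, 0, ((-3, -2, -2), -7), ((7, 2, -5), 6), 0, ((4, -8, 1), 15),
    ((-17, -30, -5), -2), ((1, -20, 4), 33), ((58, -32, -39), 57)],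
   [0, 0, 0, 0, 0, 0, 0, 0, 0, 0, 0, 0, 0, 0, 0, 0, ((46, 0, -35), 33), ((8, -6, -7), 3), 0, 0,
    0, ((-28, 43, 19), -16), ((11, 7, -9), 6), ((10, 47, -39), 40), ((-3, -20, 15), 36),
    ((-32, -28, 29), 37), 0, ((142, -34, -103), 117)],
   [0, 0, 0, 0, 0, 0, 0, 0, 0, 0, 0, 0, 0, 0, 0, 0, 0, ((-2, -3, 1), -3), 0, 0, 0,
    ((-48, 20, 21), -43), ((4, 6, -1), 9), ((0, -2, -3), 7), ((-1, -1, 1), 0), 0, 0,
    ((82, -24, -35), 141)],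
   [0, 0, 0, 0, 0, 0, 0, 0, 0, 0, 0, 0, 0, 0, 0, 0, 0, 0, 0, 0, 0, ((-10, 16, 7), -7),
    ((0, 38, 3), 9), ((-32, 78, -23), 87), ((0, -2, 1), 3), ((-28, -44, 27), 47), 0,
    ((8, -4, -3), 15)],
   [0, 0, 0, 0, 0, 0, 0, 0, 0, 0, 0, 0, 0, 0, 0, 0, 0, 0, 0, ((5, -4, -3), 19),
    ((31, -17, -19), 103), 0, 0, 0, 0, ((-45, -5, 24), -4), ((21, -20, 18), 62)],
   [0, 0, 0, 0, 0, 0, 0, 0, 0, 0, 0, 0, 0, 0, 0, 0, 0, 0, 0, 0, ((1, 0, 0), 1), 0, 0, 0,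
    ((15, -11, 24), 35), ((-31, 5, 29), -49), ((0, -2, 7), 1), ((58, 1, 10), 44)],
   [0, 0, 0, 0, 0, 0, 0, 0, 0, 0, 0, 0, 0, 0, 0, 0, 0, 0, 0, 0, 0, 0, ((-15, 41, 32), -108),
    ((-33, 11, -12), 16), ((52, -12, 75), 25), 0, ((-11, -3, 16), -15), ((10, 1, 4), 2)],
   [0, 0, 0, 0, 0, 0, 0, 0, 0, 0, 0, 0, 0, 0, 0, 0, 0, 0, 0, 0, 0, 0, ((18, -4, -7), 17),
    ((0, 0, -1), 3), ((62, -62, -1), 121), ((-3, -14, 2), 17), ((20, -60, 17), 131)],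
   [0, 0, 0, 0, 0, 0, 0, 0, 0, 0, 0, 0, 0, 0, 0, 0, 0, 0, 0, 0, 0, 0, 0, ((-1, 0, -1), 3),
    ((-2, -29, 11), 27), 0, 0, ((8, -8, -3), 15)],
   [0, 0, 0, 0, 0, 0, 0, 0, 0, 0, 0, 0, 0, 0, 0, 0, 0, 0, 0, 0, 0, 0, 0, 0, 0,
    ((-1, -41, 24), -28), 0, ((112, -78, 19), -27)],
   [0, 0, 0, 0, 0, 0, 0, 0, 0, 0, 0, 0, 0, 0, 0, 0, 0, 0, 0, 0, 0, 0, 0, 0, 0,
    ((-26, 3, 1), -26), ((-1, 0, 0), -1), ((10, 14, -19), -27)],
   [0, 0, 0, 0, 0, 0, 0, 0, 0, 0, 0, 0, 0, 0, 0, 0, 0, 0, 0, 0, 0, 0, 0, 0, 0, 0, ((3, -1, 0), 4)],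
   [0, 0, 0, 0, 0, 0, 0, 0, 0, 0, 0, 0, 0, 0, 0, 0, 0, 0, 0, 0, 0, 0, 0, 0, 0, 0, 0,
    ((76, 64, -75), -105)],
   []]

/-- separating planes for pairs of triangles -/
def N13 (i j : Fin 28) : Z3 × ℤ := (N13L.getD i.val []).getD j.val 0

/-- cone certificates -/
def C13L : List (List (CC (Fin 13))) := [
   [(1, (1, 0), (1, 0), (1, 0)), (1, (1, 1), (1, 0), (1, 0)), (1, (2, 1), (1, 0), (1, 0)),
    (23, (4, 7), (9, 1), (12, 4)), (1, (4, 1), (1, 0), (1, 0)), (1, (1, 1), (4, 1), (1, 0)),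
    (3, (2, 13), (9, 5), (12, 4)), (5, (4, 2), (2, 12), (9, 3)), (7, (4, 2), (2, 13), (12, 1)),
    (1, (9, 1), (1, 0), (1, 0)), (1, (10, 1), (1, 0), (1, 0)), (1, (1, 3), (2, 4), (9, 1)),
    (1, (12, 1), (1, 0), (1, 0))],
   [(1, (0, 1), (0, 0), (0, 0)), (1, (0, 0), (0, 0), (0, 0)), (1, (3, 7), (5, 9), (12, 1)),
    (1, (3, 1), (0, 0), (0, 0)), (1, (0, 1), (5, 1), (0, 0)), (1, (5, 1), (0, 0), (0, 0)),
    (1, (6, 1), (0, 0), (0, 0)), (2, (0, 5), (5, 5), (0, 0)), (1, (3, 11), (5, 16), (12, 2)),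
    (1, (9, 1), (0, 0), (0, 0)), (1, (10, 1), (0, 0), (0, 0)), (1, (3, 1), (5, 4), (0, 0)),
    (1, (12, 1), (0, 0), (0, 0))],
   [(1, (0, 1), (0, 0), (0, 0)), (1, (0, 2), (4, 1), (8, 2)), (1, (0, 0), (0, 0), (0, 0)),
    (1, (0, 2), (8, 1), (0, 0)), (1, (4, 1), (0, 0), (0, 0)), (1, (5, 1), (0, 0), (0, 0)),
    (1, (6, 1), (0, 0), (0, 0)), (1, (7, 1), (0, 0), (0, 0)), (1, (8, 1), (0, 0), (0, 0)),
    (1, (9, 1), (0, 0), (0, 0)), (1, (4, 3), (7, 1), (8, 2)), (3, (4, 10), (7, 2), (8, 9)),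
    (1, (0, 1), (6, 2), (8, 5))],
   [(12, (6, 2), (8, 5), (9, 2)), (1, (1, 1), (1, 0), (1, 0)), (12, (6, 2), (8, 11), (9, 2)),
    (1, (1, 0), (1, 0), (1, 0)), (7, (1, 5), (8, 4), (9, 2)), (7, (1, 13), (8, 2), (9, 1)),
    (1, (6, 1), (1, 0), (1, 0)), (7, (1, 2), (8, 10), (9, 5)), (1, (8, 1), (1, 0), (1, 0)),
    (1, (9, 1), (1, 0), (1, 0)), (14, (1, 44), (8, 17), (9, 12)), (7, (1, 24), (8, 8), (9, 4)),
    (2, (1, 12), (6, 16), (8, 9))],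
   [(1, (0, 1), (0, 0), (0, 0)), (1, (0, 1), (5, 1), (0, 0)), (1, (2, 1), (0, 0), (0, 0)),
    (2, (0, 3), (5, 1), (0, 0)), (1, (0, 0), (0, 0), (0, 0)), (1, (5, 1), (0, 0), (0, 0)),
    (1, (0, 6), (5, 1), (10, 1)), (1, (0, 6), (2, 3), (10, 3)), (5, (2, 11), (5, 3), (10, 1)),
    (1, (0, 14), (2, 1), (10, 5)), (1, (10, 1), (0, 0), (0, 0)), (1, (2, 1), (5, 1), (10, 1)),
    (2, (0, 11), (2, 2), (5, 7))],
   [(1, (1, 1), (4, 1), (1, 0)), (1, (1, 1), (1, 0), (1, 0)), (1, (2, 1), (1, 0), (1, 0)),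
    (2, (4, 2), (10, 1), (12, 1)), (1, (4, 1), (1, 0), (1, 0)), (1, (1, 0), (1, 0), (1, 0)),
    (1, (6, 1), (1, 0), (1, 0)), (1, (1, 1), (2, 1), (10, 1)), (3, (2, 4), (11, 5), (12, 2)),
    (2, (1, 8), (10, 13), (12, 5)), (1, (10, 1), (1, 0), (1, 0)), (1, (11, 1), (1, 0), (1, 0)),
    (1, (12, 1), (1, 0), (1, 0))],
   [(5, (3, 2), (7, 1), (2, 1)), (1, (1, 1), (1, 0), (1, 0)), (1, (2, 1), (1, 0), (1, 0)),
    (1, (3, 1), (1, 0), (1, 0)), (1, (12, 1), (9, 1), (2, 1)), (1, (5, 1), (1, 0), (1, 0)),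
    (1, (1, 0), (1, 0), (1, 0)), (1, (7, 1), (1, 0), (1, 0)), (1, (8, 1), (1, 0), (1, 0)),
    (1, (9, 1), (1, 0), (1, 0)), (3, (3, 8), (12, 5), (9, 6)), (1, (3, 3), (12, 2), (9, 2)),
    (1, (12, 1), (1, 0), (1, 0))],
   [(2, (9, 1), (8, 2), (2, 0)), (2, (6, 1), (10, 1), (8, 1)), (1, (2, 1), (2, 0), (2, 0)),
    (7, (6, 4), (11, 1), (8, 2)), (10, (6, 3), (10, 3), (8, 3)), (3, (2, 1), (6, 1), (11, 2)),
    (1, (6, 1), (2, 0), (2, 0)), (1, (2, 0), (2, 0), (2, 0)), (1, (8, 1), (2, 0), (2, 0)),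
    (1, (9, 1), (2, 0), (2, 0)), (1, (10, 1), (2, 0), (2, 0)), (1, (11, 1), (2, 0), (2, 0)),
    (5, (6, 6), (10, 1), (8, 6))],
   [(2, (2, 2), (3, 1), (2, 0)), (12, (11, 5), (12, 2), (6, 4)), (1, (2, 1), (2, 0), (2, 0)),
    (1, (3, 1), (2, 0), (2, 0)), (4, (2, 4), (11, 1), (3, 1)), (8, (2, 4), (11, 5), (12, 2)),
    (1, (6, 1), (2, 0), (2, 0)), (1, (7, 1), (2, 0), (2, 0)), (1, (2, 0), (2, 0), (2, 0)),
    (1, (9, 1), (2, 0), (2, 0)), (8, (7, 4), (11, 7), (3, 1)), (1, (11, 1), (2, 0), (2, 0)),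
    (1, (12, 1), (2, 0), (2, 0))],
   [(1, (0, 1), (0, 0), (0, 0)), (1, (1, 1), (0, 0), (0, 0)), (1, (2, 1), (0, 0), (0, 0)),
    (1, (3, 1), (0, 0), (0, 0)), (4, (10, 1), (7, 2), (12, 1)), (22, (0, 2), (10, 15), (12, 7)),
    (1, (6, 1), (0, 0), (0, 0)), (1, (7, 1), (0, 0), (0, 0)), (1, (8, 1), (0, 0), (0, 0)),
    (1, (0, 0), (0, 0), (0, 0)), (1, (10, 1), (0, 0), (0, 0)), (8, (10, 9), (12, 1), (0, 0)),
    (1, (12, 1), (0, 0), (0, 0))],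
   [(1, (0, 1), (0, 0), (0, 0)), (1, (1, 1), (0, 0), (0, 0)), (9, (7, 5), (11, 6), (4, 7)),
    (9, (9, 4), (11, 13), (4, 8)), (1, (4, 1), (0, 0), (0, 0)), (1, (5, 1), (0, 0), (0, 0)),
    (4, (0, 1), (9, 2), (5, 5)), (1, (7, 1), (0, 0), (0, 0)), (9, (7, 8), (11, 15), (4, 4)),
    (1, (9, 1), (0, 0), (0, 0)), (1, (0, 0), (0, 0), (0, 0)), (1, (11, 1), (0, 0), (0, 0)),
    (1, (9, 2), (11, 8), (0, 0))],
   [(2, (5, 2), (10, 2), (8, 1)), (12, (10, 5), (7, 2), (12, 5)), (6, (5, 2), (10, 4), (8, 5)),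
    (3, (5, 4), (10, 2), (8, 1)), (4, (10, 1), (7, 2), (12, 1)), (1, (5, 1), (5, 0), (5, 0)),
    (10, (10, 21), (8, 2), (12, 7)), (1, (7, 1), (5, 0), (5, 0)), (1, (8, 1), (5, 0), (5, 0)),
    (2, (10, 9), (12, 1), (5, 0)), (1, (10, 1), (5, 0), (5, 0)), (1, (5, 0), (5, 0), (5, 0)),
    (1, (12, 1), (5, 0), (5, 0))],
   [(1, (0, 1), (0, 0), (0, 0)), (1, (1, 1), (0, 0), (0, 0)), (7, (0, 1), (8, 5), (6, 2)),
    (7, (11, 1), (8, 2), (6, 4)), (7, (1, 5), (8, 2), (6, 2)), (1, (5, 1), (0, 0), (0, 0)),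
    (1, (6, 1), (0, 0), (0, 0)), (7, (1, 2), (8, 5), (6, 5)), (1, (8, 1), (0, 0), (0, 0)),
    (1, (9, 1), (0, 0), (0, 0)), (9, (11, 8), (9, 2), (0, 0)), (1, (11, 1), (0, 0), (0, 0)),
    (1, (0, 0), (0, 0), (0, 0))]]

/-- cone certificates -/
def C13 (v u : Fin 13) : CC (Fin 13) :=
  (C13L.getD v.val []).getD u.val (0, (0, 0), (0, 0), (0, 0))

theorem card13 : ∀ i, (tset (T13 i)).card = 3 := by decide

theorem link13 : ∀ v : Fin 13, ∃ (n : ℕ) (c : ZMod n → Fin 13), IsLinkCycle (mkTri T13) v n c := by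
  intro v
  fin_cases v
  · exact ⟨6, (![1, 10, 4, 2, 9, 12] : Fin 6 → Fin 13), isLinkCycle_of (n := 6) T13 _ _ (by norm_num)
      (by decide +kernel) (by decide +kernel) (by decide +kernel) (by decide +kernel)⟩
  · exact ⟨7, (![0, 10, 9, 3, 6, 5, 12] : Fin 7 → Fin 13), isLinkCycle_of (n := 7) T13 _ _ (by norm_num)
      (by decide +kernel) (by decide +kernel) (by decide +kernel) (by decide +kernel)⟩
  · exact ⟨7, (![0, 4, 5, 6, 7, 8, 9] : Fin 7 → Fin 13), isLinkCycle_of (n := 7) T13 _ _ (by norm_num)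
      (by decide +kernel) (by decide +kernel) (by decide +kernel) (by decide +kernel)⟩
  · exact ⟨4, (![1, 6, 8, 9] : Fin 4 → Fin 13), isLinkCycle_of (n := 4) T13 _ _ (by norm_num)
      (by decide +kernel) (by decide +kernel) (by decide +kernel) (by decide +kernel)⟩
  · exact ⟨4, (![0, 2, 5, 10] : Fin 4 → Fin 13), isLinkCycle_of (n := 4) T13 _ _ (by norm_num)
      (by decide +kernel) (by decide +kernel) (by decide +kernel) (by decide +kernel)⟩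
  · exact ⟨7, (![1, 6, 2, 4, 10, 11, 12] : Fin 7 → Fin 13), isLinkCycle_of (n := 7) T13 _ _ (by norm_num)
      (by decide +kernel) (by decide +kernel) (by decide +kernel) (by decide +kernel)⟩
  · exact ⟨8, (![1, 3, 8, 12, 9, 7, 2, 5] : Fin 8 → Fin 13), isLinkCycle_of (n := 8) T13 _ _ (by norm_num)
      (by decide +kernel) (by decide +kernel) (by decide +kernel) (by decide +kernel)⟩
  · exact ⟨6, (![2, 6, 9, 10, 11, 8] : Fin 6 → Fin 13), isLinkCycle_of (n := 6) T13 _ _ (by norm_num)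
      (by decide +kernel) (by decide +kernel) (by decide +kernel) (by decide +kernel)⟩
  · exact ⟨7, (![2, 7, 11, 12, 6, 3, 9] : Fin 7 → Fin 13), isLinkCycle_of (n := 7) T13 _ _ (by norm_num)
      (by decide +kernel) (by decide +kernel) (by decide +kernel) (by decide +kernel)⟩
  · exact ⟨9, (![0, 2, 8, 3, 1, 10, 7, 6, 12] : Fin 9 → Fin 13), isLinkCycle_of (n := 9) T13 _ _ (by norm_num)
      (by decide +kernel) (by decide +kernel) (by decide +kernel) (by decide +kernel)⟩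
  · exact ⟨7, (![0, 1, 9, 7, 11, 5, 4] : Fin 7 → Fin 13), isLinkCycle_of (n := 7) T13 _ _ (by norm_num)
      (by decide +kernel) (by decide +kernel) (by decide +kernel) (by decide +kernel)⟩
  · exact ⟨5, (![5, 10, 7, 8, 12] : Fin 5 → Fin 13), isLinkCycle_of (n := 5) T13 _ _ (by norm_num)
      (by decide +kernel) (by decide +kernel) (by decide +kernel) (by decide +kernel)⟩
  · exact ⟨7, (![0, 1, 5, 11, 8, 6, 9] : Fin 7 → Fin 13), isLinkCycle_of (n := 7) T13 _ _ (by norm_num)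
      (by decide +kernel) (by decide +kernel) (by decide +kernel) (by decide +kernel)⟩

/-- the triangulated surface -/
def K13 : Surf (Fin 13) where
  tri := mkTri T13
  card3 := by
    intro t ht
    obtain ⟨i, -, rfl⟩ := Finset.mem_image.1 ht
    exact card13 i
  link := link13

/-- the vertices of the polyhedron -/
noncomputable def p13 : Fin 13 → E3 := fun v => toE (P13 v)

theorem nd13 : ∀ i, (T13 i).1 ≠ (T13 i).2.1 ∧ (T13 i).1 ≠ (T13 i).2.2 ∧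
    (T13 i).2.1 ≠ (T13 i).2.2 ∧
    zcross (P13 (T13 i).2.1 - P13 (T13 i).1) (P13 (T13 i).2.2 - P13 (T13 i).1) ≠ 0 := by
  decide +kernel

theorem sep13 : ∀ i j, i < j → (tset (T13 i) ∩ tset (T13 j)).Nonempty →
    Sep P13 (tset (T13 i)) (tset (T13 j)) (N13 i j) := by
  decide +kernel

theorem inj13 : Function.Injective P13 := by decide +kernel

theorem cc13 : ∀ v u, CCok T13 P13 v u (C13 v u) := by decide +kernel

/-- all vertex stars are embedded -/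
theorem emb13 : K13.EmbStars p13 := embStars_int K13 T13 rfl P13 nd13 N13 sep13

/-- the two-piece property -/
theorem tpp13 : TPP (K13.map p13) := tpp_int K13 T13 rfl P13 inj13 C13 cc13

/-- 28 triangles -/
theorem ntri13 : K13.tri.card = 28 := by decide +kernel

/-- 42 edges, so the Euler characteristic is `13 - 42 + 28 = -1` -/
theorem nedge13 : ((Finset.univ : Finset (Fin 13 × Fin 13)).filter fun x =>
    x.1 < x.2 ∧ ∃ i, x.1 ∈ tset (T13 i) ∧ x.2 ∈ tset (T13 i)).card = 42 := by decide +kernel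

end Pool.Agent.TSZ
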